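import Mathlib

/-! # Existence of the residual polynomial -/

set_option autoImplicit false

namespace Pool.Agent.TH343.PR

open Polynomial IntermediateField

/-- arithmetic of orders -/
lemma nt_order {o N r M q Φ e : ℕ} (hr : r.Prime) (ho : o ∣ N) (ho' : ¬ o ∣ N / r)
    (hqΦ : q * Φ ∣ N) (he : r ^ e ∣ Φ) (hM : ¬ r ^ e ∣ M) (hoM : o ∣ M * q) (hq : 0 < q) :
    False := by
  obtain ⟨c, rfl⟩ := ho
  have hc : ¬ r ∣ c := by
    rintro ⟨c', rfl⟩
    apply ho'
    refine ⟨c', ?_⟩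
    rw [show o * (r * c') = o * c' * r by ring, Nat.mul_div_cancel _ hr.pos]
  obtain ⟨a, q', hq', rfl⟩ := Nat.exists_eq_pow_mul_and_not_dvd hq.ne' r hr.ne_one
  have h1 : r ^ (a + e) ∣ o * c := by
    refine dvd_trans ?_ hqΦ
    rw [pow_add]
    exact mul_dvd_mul (dvd_mul_right _ _) he
  have h2 : r ^ (a + e) ∣ o :=
    Nat.Coprime.dvd_of_dvd_mul_right (Nat.Coprime.pow_left _ ((Nat.Prime.coprime_iff_not_dvd hr).2 hc)) h1
  have h3 : r ^ a * r ^ e ∣ r ^ a * (M * q') := by
    rw [← pow_add]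
    refine (h2.trans hoM).trans ?_
    rw [show M * (r ^ a * q') = r ^ a * (M * q') by ring]
  have h4 : r ^ e ∣ M * q' := Nat.dvd_of_mul_dvd_mul_left (pow_pos hr.pos _) h3
  exact hM (Nat.Coprime.dvd_of_dvd_mul_right
    (Nat.Coprime.pow_left _ ((Nat.Prime.coprime_iff_not_dvd hr).2 hq')) h4)

/-- the value of the cyclotomic polynomial -/
noncomputable def Phi (p f : ℕ) : ℕ := ((cyclotomic f ℤ).eval (p : ℤ)).natAbs

lemma Phi_dvd {p f d : ℕ} (hp : 1 ≤ p) (hd : d ∈ f.properDivisors) :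
    (p ^ d - 1) * Phi p f ∣ p ^ f - 1 := by
  have h := X_pow_sub_one_mul_cyclotomic_dvd_X_pow_sub_one_of_dvd ℤ hd
  have h2 := eval_dvd (x := (p : ℤ)) h
  simp only [eval_mul, eval_sub, eval_pow, eval_X, eval_one] at h2
  have h3 := Int.natAbs_dvd_natAbs.2 h2
  rw [Int.natAbs_mul] at h3
  have h4 : ∀ m : ℕ, ((p : ℤ) ^ m - 1).natAbs = p ^ m - 1 := by
    intro m
    have h5 : ((p : ℤ) ^ m - 1) = ((p ^ m - 1 : ℕ) : ℤ) := by
      rw [Nat.cast_sub (Nat.one_le_pow _ _ hp)]
      push_cast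
      ring
    rw [h5, Int.natAbs_natCast]
  rw [h4, h4] at h3
  exact h3

lemma Phi_gt {p f : ℕ} (hp : 17 ≤ p) (hf : 2 ≤ f) : 16 < Phi p f := by
  have h17 : (17 : ℝ) ≤ p := by exact_mod_cast hp
  have h1 := sub_one_pow_totient_lt_cyclotomic_eval (n := f) (q := (p : ℝ)) hf (by linarith)
  have h2 : (16 : ℝ) < (cyclotomic f ℝ).eval (p : ℝ) := by
    refine lt_of_le_of_lt ?_ h1
    have h3 : 1 ≤ Nat.totient f := Nat.totient_pos.2 (by omega)
    calc (16 : ℝ) ≤ ((p : ℝ) - 1) ^ 1 := by linarith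
      _ ≤ ((p : ℝ) - 1) ^ Nat.totient f := pow_le_pow_right₀ (by linarith) h3
  have h3 : (cyclotomic f ℝ).eval (p : ℝ) = (((cyclotomic f ℤ).eval (p : ℤ) : ℤ) : ℝ) := by
    rw [← map_cyclotomic f (Int.castRingHom ℝ)]
    have := eval_intCast_map (Int.castRingHom ℝ) (cyclotomic f ℤ) (p : ℤ)
    simpa using this
  rw [h3] at h2
  have h4 : (16 : ℤ) < (cyclotomic f ℤ).eval (p : ℤ) := by exact_mod_cast h2
  unfold Phi
  omega

section field

variable {p : ℕ} [hpf : Fact p.Prime] {F : Type} [Field F] [Algebra (ZMod p) F] [Finite F]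

lemma adjoin_eq_top {f : ℕ} (hf : 2 ≤ f) (hF : Module.finrank (ZMod p) F = f)
    {r e M : ℕ} (hr : r.Prime) (he : r ^ e ∣ Phi p f) (hM : ¬ r ^ e ∣ M) {β : F} (hβ0 : β ≠ 0)
    (hβ : β ^ ((p ^ f - 1) / r) ≠ 1) : (ZMod p)⟮β ^ M⟯ = ⊤ := by
  have hp : p.Prime := hpf.out
  have hfd : FiniteDimensional (ZMod p) F := Module.Finite.of_finite
  set L : IntermediateField (ZMod p) F := (ZMod p)⟮β ^ M⟯ with hL
  have hcardF : Nat.card F = p ^ f := by
    rw [Module.natCard_eq_pow_finrank (K := ZMod p), hF, Nat.card_zmod]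
  have hβN : β ^ (p ^ f - 1) = 1 := by
    have : Fintype F := Fintype.ofFinite F
    have h1 := FiniteField.pow_card_sub_one_eq_one β hβ0
    rw [← Nat.card_eq_fintype_card, hcardF] at h1
    exact h1
  set d := Module.finrank (ZMod p) L with hd
  have hdf : d ∣ f := by
    rw [← hF, ← Module.finrank_mul_finrank (ZMod p) L F]
    exact dvd_mul_right _ _
  by_contra hcon
  have hdlt : d < f := by
    rcases lt_or_eq_of_le (Nat.le_of_dvd (by omega) hdf) with h | h
    · exact h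
    · exfalso
      apply hcon
      apply IntermediateField.eq_of_le_of_finrank_eq le_top
      rw [IntermediateField.finrank_top', hF, ← h]
  have hdpos : 0 < d := Module.finrank_pos
  have hprop : d ∈ f.properDivisors := Nat.mem_properDivisors.2 ⟨hdf, hdlt⟩
  have hγ : (β ^ M) ^ (p ^ d - 1) = 1 := by
    have hcardL : Nat.card L = p ^ d := by
      rw [Module.natCard_eq_pow_finrank (K := ZMod p), Nat.card_zmod]
    have : Fintype L := Fintype.ofFinite L
    set g : L := AdjoinSimple.gen (ZMod p) (β ^ M) with hg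
    have hgc : (g : F) = β ^ M := AdjoinSimple.coe_gen _ _
    have hg0 : g ≠ 0 := by
      intro h
      have : (g : F) = 0 := by rw [h]; rfl
      rw [hgc] at this
      exact pow_ne_zero _ hβ0 this
    have h1 := FiniteField.pow_card_sub_one_eq_one g hg0
    rw [← Nat.card_eq_fintype_card, hcardL] at h1
    have h2 := congrArg (fun y : L => (y : F)) h1
    simpa [hgc] using h2
  have h1 : orderOf β ∣ p ^ f - 1 := orderOf_dvd_of_pow_eq_one hβN
  have h2 : ¬ orderOf β ∣ (p ^ f - 1) / r := by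
    intro h
    exact hβ (orderOf_dvd_iff_pow_eq_one.1 h)
  have h3 : orderOf β ∣ M * (p ^ d - 1) := by
    apply orderOf_dvd_of_pow_eq_one
    rw [pow_mul]
    exact hγ
  have h4 : 0 < p ^ d - 1 := by
    have : 1 < p ^ d := Nat.one_lt_pow hdpos.ne' hp.one_lt
    omega
  exact nt_order hr h1 h2 (Phi_dvd hp.one_lt.le hprop) he hM h3 h4

lemma exists_beta {f : ℕ} (hf : 2 ≤ f) (hF : Module.finrank (ZMod p) F = f)
    {r : ℕ} (hr : r.Prime) (hrN : r ∣ p ^ f - 1) :
    ∃ β : F, Algebra.trace (ZMod p) F β ≠ 0 ∧ β ^ ((p ^ f - 1) / r) ≠ 1 := by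
  classical
  have hp : p.Prime := hpf.out
  have hfd : FiniteDimensional (ZMod p) F := Module.Finite.of_finite
  have hcardF : Nat.card F = p ^ f := by
    rw [Module.natCard_eq_pow_finrank (K := ZMod p), hF, Nat.card_zmod]
  have : Fintype F := Fintype.ofFinite F
  by_contra hcon
  push Not at hcon
  set N := p ^ f - 1 with hN
  have hN1 : 1 ≤ p ^ f := Nat.one_le_pow _ _ hp.pos
  have hpf2 : 2 ≤ p ^ f := by
    have : 1 < p ^ f := Nat.one_lt_pow (by omega) hp.one_lt
    omega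
  have hNpos : 0 < N := by omega
  -- kernel of the trace
  set H : AddSubgroup F := (LinearMap.ker (Algebra.trace (ZMod p) F)).toAddSubgroup with hH
  have hHtop : H ≠ ⊤ := by
    intro h
    apply Algebra.trace_ne_zero (ZMod p) F
    apply LinearMap.ext
    intro x
    have : x ∈ H := by
      rw [h]
      trivial
    simpa [hH] using this
  have hidx : 2 ≤ H.index := by
    have h0 : H.index ≠ 0 := AddSubgroup.index_ne_zero_of_finite
    have h1 : H.index ≠ 1 := by
      intro h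
      exact hHtop (AddSubgroup.index_eq_one.1 h)
    omega
  have hcardH : Nat.card H * 2 ≤ p ^ f := by
    rw [← hcardF, ← AddSubgroup.card_mul_index H]
    exact Nat.mul_le_mul_left _ hidx
  -- roots of unity
  set S2 : Finset F := (nthRoots (N / r) (1 : F)).toFinset with hS2
  have hNr : 0 < N / r := Nat.div_pos (Nat.le_of_dvd hNpos hrN) hr.pos
  have hcardS2 : S2.card ≤ N / r := (Multiset.toFinset_card_le _).trans (card_nthRoots _ _)
  have hNr2 : (N / r) * 2 ≤ N := by
    calc (N / r) * 2 ≤ (N / r) * r := Nat.mul_le_mul_left _ hr.two_le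
      _ ≤ N := Nat.div_mul_le_self _ _
  set S1 : Finset F := Finset.univ.filter (fun x => Algebra.trace (ZMod p) F x = 0) with hS1
  have hcardS1 : S1.card = Nat.card H := by
    rw [Nat.card_eq_fintype_card, Fintype.card_subtype]
    congr 1
    ext x
    simp [hS1, hH]
  have hcover : (Finset.univ : Finset F) ⊆ S1 ∪ S2 := by
    intro x _
    rw [Finset.mem_union]
    by_cases hx : Algebra.trace (ZMod p) F x = 0
    · left
      simp [hS1, hx]
    · right
      rw [hS2, Multiset.mem_toFinset, mem_nthRoots hNr]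
      exact hcon x hx
  have h1 := Finset.card_le_card hcover
  have h2 := Finset.card_union_le S1 S2
  rw [Finset.card_univ, ← Nat.card_eq_fintype_card, hcardF] at h1
  omega

/-- existence of the residual polynomial -/
theorem exists_u_aux {f : ℕ} (hf : 2 ≤ f) (hF : Module.finrank (ZMod p) F = f)
    {M : ℕ} (hM : ¬ Phi p f ∣ M) :
    ∃ u : (ZMod p)[X], u.Monic ∧ u.natDegree = f ∧ Irreducible u ∧ u.coeff (f - 1) = 1 ∧
      ∃ R : (ZMod p)[X], u ∣ X - R.comp (X ^ M) := by
  have hp : p.Prime := hpf.out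
  have hfd : FiniteDimensional (ZMod p) F := Module.Finite.of_finite
  -- the prime r
  obtain ⟨r, e, hr, he, hMe⟩ : ∃ r e : ℕ, r.Prime ∧ r ^ e ∣ Phi p f ∧ ¬ r ^ e ∣ M := by
    by_contra hcon
    push Not at hcon
    exact hM ((Nat.dvd_iff_prime_pow_dvd_dvd _ _).2 (fun r e hr he => hcon r e hr he))
  have he0 : e ≠ 0 := by
    rintro rfl
    apply hMe
    simp
  have hrΦ : r ∣ Phi p f := (dvd_pow_self r he0).trans he
  have h1N : (p - 1) * Phi p f ∣ p ^ f - 1 := by
    have := Phi_dvd (p := p) (f := f) (d := 1) hp.one_lt.le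
      (Nat.mem_properDivisors.2 ⟨one_dvd _, by omega⟩)
    rwa [pow_one] at this
  have hrN : r ∣ p ^ f - 1 := (hrΦ.trans (dvd_mul_left _ _)).trans h1N
  obtain ⟨β, hβt, hβr⟩ := exists_beta (F := F) hf hF hr hrN
  -- scaling
  set t : ZMod p := Algebra.trace (ZMod p) F β with ht
  set c : ZMod p := -t⁻¹ with hc
  have hc0 : c ≠ 0 := by
    rw [hc]
    exact neg_ne_zero.2 (inv_ne_zero hβt)
  have hdivN : (p - 1) ∣ (p ^ f - 1) / r := by
    obtain ⟨s, hs⟩ := h1N
    obtain ⟨Φ', hΦ'⟩ := hrΦ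
    refine ⟨Φ' * s, ?_⟩
    rw [hs, hΦ', show (p - 1) * (r * Φ') * s = ((p - 1) * (Φ' * s)) * r by ring,
      Nat.mul_div_cancel _ hr.pos]
  have hcN : c ^ ((p ^ f - 1) / r) = 1 := by
    obtain ⟨s, hs⟩ := hdivN
    rw [hs, pow_mul, ZMod.pow_card_sub_one_eq_one hc0, one_pow]
  set γ : F := algebraMap (ZMod p) F c * β with hγ
  have hβ0 : β ≠ 0 := by
    rintro rfl
    apply hβt
    rw [ht, map_zero]
  have hγ0 : γ ≠ 0 := mul_ne_zero (by simpa using hc0) hβ0
  have hγr : γ ^ ((p ^ f - 1) / r) ≠ 1 := by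
    rw [hγ, mul_pow, ← map_pow, hcN, map_one, one_mul]
    exact hβr
  have hγt : Algebra.trace (ZMod p) F γ = -1 := by
    rw [hγ, ← Algebra.smul_def, map_smul, smul_eq_mul, ← ht, hc, neg_mul, inv_mul_cancel₀ hβt]
  have htop := adjoin_eq_top (F := F) hf hF hr he hMe hγ0 hγr
  have htop' : (ZMod p)⟮γ⟯ = ⊤ := by
    rw [eq_top_iff, ← htop, IntermediateField.adjoin_le_iff, Set.singleton_subset_iff]
    exact pow_mem (IntermediateField.mem_adjoin_simple_self _ _) _
  have hint : IsIntegral (ZMod p) γ := .of_finite _ _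
  have hdeg : (minpoly (ZMod p) γ).natDegree = f := by
    rw [← IntermediateField.adjoin.finrank hint, htop', IntermediateField.finrank_top', hF]
  have htr := trace_eq_finrank_mul_minpoly_nextCoeff (ZMod p) γ
  rw [hγt, htop', IntermediateField.finrank_top] at htr
  refine ⟨minpoly (ZMod p) γ, minpoly.monic hint, hdeg, minpoly.irreducible hint, ?_, ?_⟩
  · rw [nextCoeff_of_natDegree_pos (by rw [hdeg]; omega), hdeg] at htr
    push_cast at htr
    linear_combination htr
  · have hmem : γ ∈ (ZMod p)⟮γ ^ M⟯ := by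
      rw [htop]
      trivial
    have hint2 : IsIntegral (ZMod p) (γ ^ M) := .of_finite _ _
    have hmem2 : γ ∈ (ZMod p)⟮γ ^ M⟯.toSubalgebra := hmem
    rw [IntermediateField.adjoin_simple_toSubalgebra_of_isAlgebraic hint2.isAlgebraic,
      Algebra.adjoin_singleton_eq_range_aeval] at hmem2
    obtain ⟨R, hR⟩ := hmem2
    refine ⟨R, ?_⟩
    apply minpoly.dvd
    rw [map_sub, aeval_X, aeval_comp, map_pow, aeval_X]
    have hR' : (aeval (γ ^ M)) R = γ := hR
    rw [hR', sub_self]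

end field

theorem exists_u (p : ℕ) [Fact p.Prime] {f : ℕ} (hf : 2 ≤ f) {M : ℕ} (hM : ¬ Phi p f ∣ M) :
    ∃ u : (ZMod p)[X], u.Monic ∧ u.natDegree = f ∧ Irreducible u ∧ u.coeff (f - 1) = 1 ∧
      ∃ R : (ZMod p)[X], u ∣ X - R.comp (X ^ M) :=
  exists_u_aux (F := GaloisField p f) hf (GaloisField.finrank p (by omega)) hM

end Pool.Agent.TH343.PR
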