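import Pool.Agent.TH343.PR.Nondeg3
import Pool.Agent.TH343.PR.FF

/-! # Assembly -/

set_option autoImplicit false

namespace Pool.Agent.TH343.PR

open Polynomial

/-- the residual polynomial, all degrees -/
theorem exists_u' (p : ℕ) [Fact p.Prime] {f : ℕ} (hf : 1 ≤ f) {M : ℕ} (hM : 2 ≤ f → ¬ Phi p f ∣ M) :
    ∃ u : (ZMod p)[X], u.Monic ∧ u.natDegree = f ∧ Irreducible u ∧ u.coeff (f - 1) = 1 ∧
      u.coeff 0 ≠ 0 ∧ ∃ R : (ZMod p)[X], u ∣ X - R.comp (X ^ M) := by
  by_cases hf2 : 2 ≤ f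
  · obtain ⟨u, h1, h2, h3, h4, h5⟩ := exists_u p hf2 (hM hf2)
    refine ⟨u, h1, h2, h3, h4, ?_, h5⟩
    intro h0
    have hX : X ∣ u := X_dvd_iff.2 h0
    have h6 : Associated X u := (prime_X.irreducible).associated_of_dvd h3 hX
    have h7 : X = u := eq_of_monic_of_associated monic_X h1 h6
    rw [← h7, natDegree_X] at h2
    omega
  · obtain rfl : f = 1 := by omega
    have hu : (X + C (1 : ZMod p)).natDegree = 1 := natDegree_X_add_C _
    refine ⟨X + C 1, monic_X_add_C _, hu, ?_, ?_, ?_, ?_⟩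
    · apply irreducible_of_degree_eq_one
      exact degree_X_add_C _
    · simp
    · simp
    · refine ⟨C (-1), ?_⟩
      rw [C_comp, C_neg, sub_neg_eq_add]

/-- lift of a polynomial over `ZMod p` with small coefficients -/
noncomputable def lift (p f : ℕ) (u : (ZMod p)[X]) : ℤ[X] :=
  ∑ i ∈ Finset.range (f + 1), C (u.coeff i).valMinAbs * X ^ i

lemma coeff_lift {p f : ℕ} {u : (ZMod p)[X]} (hu : u.natDegree ≤ f) (i : ℕ) :
    (lift p f u).coeff i = (u.coeff i).valMinAbs := by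
  unfold lift
  rw [finsetSum_coeff]
  simp only [coeff_C_mul_X_pow]
  rw [Finset.sum_ite_eq]
  split_ifs with h
  · rfl
  · rw [Finset.mem_range, not_lt] at h
    rw [coeff_eq_zero_of_natDegree_lt (by omega)]
    simp

theorem exists_dat {p : ℕ} (hp : p.Prime) (hp17 : 17 ≤ p) {f k : ℕ} (hf : 1 ≤ f) (hk : 1 ≤ k) :
    ∃ (V : ℤ[X]) (b : ℤ) (K0 : ℕ) (R : (ZMod p)[X]), Dat p V f k b ∧
      ((b = 0 ∧ K0 = k) ∨ (b ^ 2 = 1 ∧ K0 = k - 1)) ∧ 1 ≤ K0 ∧
      V.map (Int.castRingHom (ZMod p)) ∣ X - R.comp (X ^ (4 * K0)) := by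
  have hfact : Fact p.Prime := ⟨hp⟩
  have hodd : p % 2 = 1 := by
    rcases hp.eq_two_or_odd with h | h
    · omega
    · exact h
  have hone : (1 : ZMod p).valMinAbs = 1 := by
    have := ZMod.valMinAbs_natCast_of_le_half (n := p) (a := 1) (by omega)
    simpa using this
  -- general construction
  have main : ∀ K0 : ℕ, (2 ≤ f → ¬ Phi p f ∣ 4 * K0) → ∃ (V : ℤ[X]) (R : (ZMod p)[X]),
      V.natDegree = f ∧ V.Monic ∧ V.coeff (f - 1) = 1 ∧
      (∀ i < f, 2 * |V.coeff i| ≤ (p : ℤ) - 1) ∧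
      Irreducible (V.map (Int.castRingHom (ZMod p))) ∧ ¬ (p : ℤ) ∣ V.coeff 0 ∧
      V.map (Int.castRingHom (ZMod p)) ∣ X - R.comp (X ^ (4 * K0)) := by
    intro K0 hK0
    obtain ⟨u, hum, hud, hui, hu1, hu0, R, hR⟩ := exists_u' p hf hK0
    have hco := coeff_lift (u := u) hud.le
    have hmap : (lift p f u).map (Int.castRingHom (ZMod p)) = u := by
      ext i
      rw [coeff_map, hco, eq_intCast, ZMod.coe_valMinAbs]
    have hcf : (lift p f u).coeff f = 1 := by
      rw [hco]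
      have : u.coeff f = 1 := by
        rw [← hud]
        exact hum.coeff_natDegree
      rw [this, hone]
    have hdeg : (lift p f u).natDegree = f := by
      apply natDegree_eq_of_le_of_coeff_ne_zero
      · rw [natDegree_le_iff_coeff_eq_zero]
        intro i hi
        rw [hco, coeff_eq_zero_of_natDegree_lt (by omega)]
        simp
      · rw [hcf]
        exact one_ne_zero
    refine ⟨lift p f u, R, hdeg, ?_, ?_, ?_, ?_, ?_, ?_⟩
    · rw [Monic, leadingCoeff, hdeg, hcf]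
    · rw [hco, hu1, hone]
    · intro i _
      rw [hco]
      have h1 := ZMod.natAbs_valMinAbs_le (u.coeff i)
      have h2 : |(u.coeff i).valMinAbs| = (((u.coeff i).valMinAbs).natAbs : ℤ) :=
        Int.abs_eq_natAbs _
      rw [h2]
      omega
    · rw [hmap]
      exact hui
    · rw [hco, ← ZMod.intCast_zmod_eq_zero_iff_dvd, ZMod.coe_valMinAbs]
      exact hu0
    · rw [hmap]
      exact hR
  by_cases hcase : 2 ≤ f ∧ Phi p f ∣ 4 * k
  · obtain ⟨hf2, hΦ⟩ := hcase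
    have hgt := Phi_gt hp17 hf2
    have hle := Nat.le_of_dvd (by omega) hΦ
    have hnd : 2 ≤ f → ¬ Phi p f ∣ 4 * (k - 1) := by
      intro _ h
      have h1 : Phi p f ∣ 4 * k - 4 * (k - 1) := Nat.dvd_sub hΦ h
      have h2 : 4 * k - 4 * (k - 1) = 4 := by omega
      rw [h2] at h1
      have := Nat.le_of_dvd (by norm_num) h1
      omega
    obtain ⟨V, R, h1, h2, h3, h4, h5, h6, h7⟩ := main (k - 1) hnd
    have hV0 : V.coeff 0 ≠ 0 := by
      intro h
      apply h6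
      rw [h]
      exact dvd_zero _
    refine ⟨V, (V.coeff 0).sign, k - 1, R, ?_, Or.inr ⟨?_, rfl⟩, by omega, h7⟩
    · refine ⟨hp, hp17, hf, hk, h1, h2, h3, h4, h5, h6, Or.inr ⟨?_, ?_, hf2, by omega⟩⟩
      · rcases lt_or_gt_of_ne hV0 with h | h
        · rw [Int.sign_eq_neg_one_of_neg h]
          norm_num
        · rw [Int.sign_eq_one_of_pos h]
          norm_num
      · rw [Int.sign_mul_self_eq_abs]
        exact abs_nonneg _
    · rcases lt_or_gt_of_ne hV0 with h | h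
      · rw [Int.sign_eq_neg_one_of_neg h]
        norm_num
      · rw [Int.sign_eq_one_of_pos h]
        norm_num
  · have hnd : 2 ≤ f → ¬ Phi p f ∣ 4 * k := fun h1 h2 => hcase ⟨h1, h2⟩
    obtain ⟨V, R, h1, h2, h3, h4, h5, h6, h7⟩ := main k hnd
    exact ⟨V, 0, k, R, ⟨hp, hp17, hf, hk, h1, h2, h3, h4, h5, h6, Or.inl rfl⟩, Or.inl ⟨rfl, rfl⟩,
      hk, h7⟩

/-- non-degeneracy over the complex numbers -/
lemma nondeg_complex {P : ℤ[X]} (hm : P.Monic)
    (h : ∀ x y : QQ, aeval x P = 0 → aeval y P = 0 → ∀ n : ℕ, 1 ≤ n → x ^ n = y ^ n → x = y)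
    {x y : ℂ} (hx : aeval x P = 0) (hy : aeval y P = 0) {n : ℕ} (hn : 1 ≤ n)
    (hxy : x ^ n = y ^ n) : x = y := by
  have hxz : IsIntegral ℤ x := ⟨P, hm, hx⟩
  have hyz : IsIntegral ℤ y := ⟨P, hm, hy⟩
  have hxi : IsIntegral ℚ x := hxz.tower_top
  have hyi : IsIntegral ℚ y := hyz.tower_top
  set L := algebraicClosure ℚ ℂ with hL
  have hLalg : Algebra.IsAlgebraic ℚ L := algebraicClosure.isAlgebraic ℚ ℂ
  have hxL : x ∈ L := mem_algebraicClosure_iff'.2 hxi
  have hyL : y ∈ L := mem_algebraicClosure_iff'.2 hyi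
  have φ : L →ₐ[ℚ] QQ := IsAlgClosed.lift
  have hφ : ∀ z : L, aeval (z : ℂ) P = 0 → aeval (φ z) P = 0 := by
    intro z hz
    have h1 : aeval z P = 0 := by
      apply (algebraMap L ℂ).injective
      rw [map_zero, ← aeval_algebraMap_apply]
      exact hz
    rw [aeval_def] at h1 ⊢
    have h2 := hom_eval₂ P (algebraMap ℤ L) (φ : L →+* QQ) z
    have e : (φ : L →+* QQ).comp (algebraMap ℤ L) = algebraMap ℤ QQ := RingHom.ext_int _ _
    rw [e, h1, map_zero] at h2
    exact h2.symm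
  have h1 := h (φ ⟨x, hxL⟩) (φ ⟨y, hyL⟩) (hφ _ hx) (hφ _ hy) n hn (by
    rw [← map_pow, ← map_pow]
    congr 1
    apply Subtype.ext
    push_cast
    exact hxy)
  have h2 := φ.injective h1
  exact congrArg Subtype.val h2

/-- fields generated by powers -/
lemma adjoin_pow_eq {P : ℤ[X]} (hm : P.Monic)
    (h : ∀ x y : ℂ, aeval x P = 0 → aeval y P = 0 → ∀ n : ℕ, 1 ≤ n → x ^ n = y ^ n → x = y)
    {x : ℂ} (hx : aeval x P = 0) {n : ℕ} (hn : 1 ≤ n) :
    IntermediateField.adjoin ℚ {x ^ n} = IntermediateField.adjoin ℚ {x} := by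
  apply le_antisymm
  · rw [IntermediateField.adjoin_le_iff, Set.singleton_subset_iff]
    exact pow_mem (IntermediateField.mem_adjoin_simple_self ℚ x) n
  · rw [IntermediateField.adjoin_le_iff, Set.singleton_subset_iff, SetLike.mem_coe]
    by_contra hcon
    set L := IntermediateField.adjoin ℚ {x ^ n} with hL
    have hxi : IsIntegral ℤ x := ⟨P, hm, hx⟩
    have hxL : IsIntegral L x := hxi.tower_top
    have hnot : x ∉ (⊥ : Subalgebra L ℂ) := by
      intro hb
      obtain ⟨y, hy⟩ := Algebra.mem_bot.1 hb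
      apply hcon
      rw [← hy]
      exact y.2
    have hsep : IsSeparable L x := (minpoly.irreducible hxL).separable
    obtain ⟨y, hy1, hy2⟩ := (notMem_iff_exists_ne_and_isConjRoot hsep (IsAlgClosed.splits _)).1 hnot
    apply hy1
    have hmem : x ^ n ∈ L := IntermediateField.mem_adjoin_simple_self ℚ (x ^ n)
    have hdvd1 : minpoly L x ∣ X ^ n - C (⟨x ^ n, hmem⟩ : L) := by
      apply minpoly.dvd
      rw [map_sub, map_pow, aeval_X, aeval_C]
      exact sub_self _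
    have hdvd2 : minpoly L x ∣ P.map (algebraMap ℤ L) := by
      apply minpoly.dvd
      rw [aeval_map_algebraMap]
      exact hx
    have hy0 : aeval y (minpoly L x) = 0 := hy2.aeval_eq_zero
    have hyn : y ^ n = x ^ n := by
      obtain ⟨Q, hQ⟩ := hdvd1
      have h1 := congrArg (aeval y) hQ
      rw [map_mul, hy0, zero_mul, map_sub, map_pow, aeval_X, aeval_C] at h1
      exact sub_eq_zero.1 h1
    have hyP : aeval y P = 0 := by
      obtain ⟨Q, hQ⟩ := hdvd2
      have h1 := congrArg (aeval y) hQ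
      rw [map_mul, hy0, zero_mul, aeval_map_algebraMap] at h1
      exact h1
    exact h x y hx hyP n hn hyn.symm

theorem final {p : ℕ} (hp : p.Prime) (hp17 : 17 ≤ p) {g f : ℕ} (hf : 1 ≤ f) (hfg : f < g) :
    ∃ P : ℤ[X], P.Monic ∧ P.natDegree = 2 * g ∧ Irreducible (P.map (Int.castRingHom ℚ)) ∧
      (∀ x : ℂ, aeval x P = 0 → ‖x‖ = Real.sqrt p) ∧
      (∀ i < 2 * g - f, (p : ℤ) ∣ P.coeff i) ∧ ¬ (p : ℤ) ∣ P.coeff (2 * g - f) ∧
      (∀ x : ℂ, aeval x P = 0 → ∀ n : ℕ, 1 ≤ n →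
        IntermediateField.adjoin ℚ {x ^ n} = IntermediateField.adjoin ℚ {x}) := by
  obtain ⟨k, hk, rfl⟩ : ∃ k, 1 ≤ k ∧ g = f + k := ⟨g - f, by omega, by omega⟩
  obtain ⟨V, b, K0, R, D, hK0, hK1, hR⟩ := exists_dat hp hp17 hf hk
  have hm : (PP (p : ℤ) V f k b).Monic := monic_PP D.hVd D.hVm D.hf D.hk
  have hcoeff : ∀ i, ((PP (p : ℤ) V f k b).coeff i : ZMod p)
      = (X ^ (2 * k + f) * V.map (Int.castRingHom (ZMod p))).coeff i := by
    intro i
    rw [← map_PP D.hk D.hb', coeff_map, eq_intCast]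
  have hnd : ∀ x y : QQ, aeval x (PP (p : ℤ) V f k b) = 0 → aeval y (PP (p : ℤ) V f k b) = 0 →
      ∀ n : ℕ, 1 ≤ n → x ^ n = y ^ n → x = y :=
    fun x y hx hy n hn hxy => D.nondeg hK0 hK1 hR hx hy hn hxy
  refine ⟨PP (p : ℤ) V f k b, hm, natDegree_PP D.hVd D.hVm D.hf D.hk, D.irreducible_rat,
    ?_, ?_, ?_, ?_⟩
  · intro x hx
    rw [← D.norm_root hx, Real.sqrt_sq (norm_nonneg _)]
  · intro i hi
    rw [← ZMod.intCast_zmod_eq_zero_iff_dvd, hcoeff, coeff_X_pow_mul', if_neg (by omega)]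
  · have e : 2 * (f + k) - f = 2 * k + f := by omega
    rw [e, ← ZMod.intCast_zmod_eq_zero_iff_dvd, hcoeff, coeff_X_pow_mul', if_pos le_rfl,
      Nat.sub_self, coeff_map, eq_intCast, ZMod.intCast_zmod_eq_zero_iff_dvd]
    exact D.hV0
  · intro x hx n hn
    exact adjoin_pow_eq hm (fun x y hx hy n hn hxy => nondeg_complex hm hnd hx hy hn hxy) hx hn

end Pool.Agent.TH343.PR
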