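import Mathlib

/-! # The polynomials attached to (V, f, k, b) -/

set_option autoImplicit false

namespace Pool.Agent.TH343.PR

open Polynomial

/-- the polynomial `W = X^f V(p/X)` -/
noncomputable def WW (p : ℤ) (V : ℤ[X]) (f : ℕ) : ℤ[X] :=
  ∑ i ∈ Finset.range (f + 1), C (V.coeff i * p ^ i) * X ^ (f - i)

/-- the reversed polynomial, with the correction term -/
noncomputable def AA (p : ℤ) (V : ℤ[X]) (f : ℕ) (b : ℤ) : ℤ[X] :=
  ∑ i ∈ Finset.range (f + 1), C (V.coeff i) * X ^ (f - i) + C (b * V.coeff 0 * p) * X ^ (f + 2)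

/-- the Weil polynomial -/
noncomputable def PP (p : ℤ) (V : ℤ[X]) (f k : ℕ) (b : ℤ) : ℤ[X] :=
  X ^ (2 * k + f) * V + (C (p ^ k) * WW p V f
    + C (b * V.coeff 0) * (C p * X ^ (2 * k + f - 2) + C (p ^ (k - 1)) * X ^ (f + 2)))

variable {R : Type*} [CommRing R]

lemma aeval_range {V : ℤ[X]} {f : ℕ} (hV : V.natDegree ≤ f) (x : R) :
    aeval x V = ∑ i ∈ Finset.range (f + 1), (V.coeff i : R) * x ^ i := by
  rw [aeval_eq_sum_range' (n := f + 1) (by omega)]
  apply Finset.sum_congr rfl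
  intro i _
  rw [zsmul_eq_mul]

lemma aeval_WW {p : ℤ} {V : ℤ[X]} {f : ℕ} (hV : V.natDegree ≤ f) {x x' : R}
    (h : x * x' = (p : R)) : aeval x (WW p V f) = x ^ f * aeval x' V := by
  rw [aeval_range hV, WW, Finset.mul_sum, map_sum]
  apply Finset.sum_congr rfl
  intro i hi
  have hi' : i ≤ f := by
    have := Finset.mem_range.1 hi
    omega
  have h1 : x ^ f = x ^ (f - i) * x ^ i := by
    rw [← pow_add]
    congr 1
    omega
  simp only [map_mul, map_pow, aeval_X, eq_intCast, map_intCast, ← h]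
  rw [h1, mul_pow]
  ring

lemma aeval_PP {p : ℤ} {V : ℤ[X]} {f k : ℕ} {b : ℤ} (hV : V.natDegree ≤ f) (hk : 1 ≤ k)
    (hb : b = 0 ∨ 2 ≤ k) {x x' : R}
    (h : x * x' = (p : R)) : aeval x (PP p V f k b) = x ^ (f + k) * (x ^ k * aeval x V
      + x' ^ k * aeval x' V + (b : R) * (V.coeff 0 : R) * (x ^ (k - 1) * x' + x * x' ^ (k - 1))) := by
  have e1 : x ^ (2 * k + f) = x ^ (f + k) * x ^ k := by
    rw [← pow_add]
    congr 1
    omega
  have e2 : (p : R) ^ k * x ^ f = x ^ (f + k) * x' ^ k := by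
    rw [← h, mul_pow, pow_add]
    ring
  simp only [PP, map_add, map_mul, map_pow, aeval_X, eq_intCast, map_intCast, aeval_WW hV h]
  rcases hb with hb | hb
  · subst hb
    rw [e1]
    simp only [Int.cast_zero, zero_mul, add_zero]
    linear_combination (aeval x' V) * e2
  · obtain ⟨j, rfl⟩ : ∃ j, k = j + 2 := ⟨k - 2, by omega⟩
    have e3 : 2 * (j + 2) + f - 2 = f + 2 * j + 2 := by omega
    have e4 : j + 2 - 1 = j + 1 := by omega
    rw [e1, e3, e4]
    have e5 : (p : R) * x ^ (f + 2 * j + 2) = x ^ (f + (j + 2)) * (x ^ (j + 1) * x') := by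
      rw [← h]
      ring
    have e6 : (p : R) ^ (j + 1) * x ^ (f + 2) = x ^ (f + (j + 2)) * (x * x' ^ (j + 1)) := by
      rw [← h, mul_pow]
      ring
    linear_combination (aeval x' V) * e2 + (b : R) * (V.coeff 0 : R) * (e5 + e6)

lemma natDegree_WW_le (p : ℤ) (V : ℤ[X]) (f : ℕ) : (WW p V f).natDegree ≤ f := by
  unfold WW
  apply natDegree_sum_le_of_forall_le
  intro i _
  exact (natDegree_C_mul_X_pow_le _ _).trans (by omega)

lemma natDegree_AA_le (p : ℤ) (V : ℤ[X]) {f g : ℕ} {b : ℤ} (h1 : f ≤ g) (h2 : b = 0 ∨ f + 2 ≤ g) :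
    (AA p V f b).natDegree ≤ g := by
  unfold AA
  apply natDegree_add_le_of_degree_le
  · apply natDegree_sum_le_of_forall_le
    intro i _
    exact (natDegree_C_mul_X_pow_le _ _).trans (by omega)
  · rcases h2 with h2 | h2
    · subst h2
      simp
    · exact (natDegree_C_mul_X_pow_le _ _).trans (by omega)

lemma natDegree_rest (p : ℤ) (V : ℤ[X]) {f k : ℕ} (b : ℤ) (hf : 1 ≤ f) (hk : 1 ≤ k) :
    (C (p ^ k) * WW p V f
    + C (b * V.coeff 0) * (C p * X ^ (2 * k + f - 2) + C (p ^ (k - 1)) * X ^ (f + 2))).natDegree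
      ≤ 2 * k + 2 * f - 1 := by
  apply natDegree_add_le_of_degree_le
  · exact (natDegree_C_mul_le _ _).trans ((natDegree_WW_le p V f).trans (by omega))
  · apply (natDegree_C_mul_le _ _).trans
    apply natDegree_add_le_of_degree_le
    · exact (natDegree_C_mul_X_pow_le _ _).trans (by omega)
    · exact (natDegree_C_mul_X_pow_le _ _).trans (by omega)

lemma natDegree_PP {p : ℤ} {V : ℤ[X]} {f k : ℕ} {b : ℤ} (hV : V.natDegree = f) (hm : V.Monic)
    (hf : 1 ≤ f) (hk : 1 ≤ k) : (PP p V f k b).natDegree = 2 * (f + k) := by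
  have h1 : (X ^ (2 * k + f) * V).natDegree = 2 * (f + k) := by
    rw [Monic.natDegree_mul (monic_X_pow _) hm, natDegree_X_pow, hV]
    ring
  unfold PP
  rw [natDegree_add_eq_left_of_natDegree_lt, h1]
  rw [h1]
  have := natDegree_rest p V b hf hk
  omega

lemma monic_PP {p : ℤ} {V : ℤ[X]} {f k : ℕ} {b : ℤ} (hV : V.natDegree = f) (hm : V.Monic)
    (hf : 1 ≤ f) (hk : 1 ≤ k) : (PP p V f k b).Monic := by
  have h1 : (X ^ (2 * k + f) * V).natDegree = 2 * (f + k) := by
    rw [Monic.natDegree_mul (monic_X_pow _) hm, natDegree_X_pow, hV]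
    ring
  have h2 : (X ^ (2 * k + f) * V).Monic := (monic_X_pow _).mul hm
  unfold PP
  apply Monic.add_of_left h2
  apply degree_lt_degree
  rw [h1]
  have := natDegree_rest p V b hf hk
  omega

lemma map_PP {p : ℕ} {V : ℤ[X]} {f k : ℕ} {b : ℤ} (hk : 1 ≤ k) (hb : b = 0 ∨ 2 ≤ k) :
    (PP (p : ℤ) V f k b).map (Int.castRingHom (ZMod p)) =
      X ^ (2 * k + f) * V.map (Int.castRingHom (ZMod p)) := by
  have e1 : ((p : ℤ) ^ k : ℤ).cast = (0 : ZMod p) := by
    push_cast
    rw [CharP.cast_eq_zero (ZMod p) p, zero_pow (by omega)]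
  unfold PP
  rw [Polynomial.map_add, Polynomial.map_add, Polynomial.map_mul, Polynomial.map_mul,
    Polynomial.map_mul, map_C, map_C, eq_intCast, e1]
  rcases hb with hb | hb
  · subst hb
    simp
  · have e2 : ((p : ℤ) ^ (k - 1) : ℤ).cast = (0 : ZMod p) := by
      push_cast
      rw [CharP.cast_eq_zero (ZMod p) p, zero_pow (by omega)]
    rw [Polynomial.map_add, Polynomial.map_mul, Polynomial.map_mul, map_C, map_C, eq_intCast,
      eq_intCast, eq_intCast, e2]
    simp

/-- the relation used for the Weil property -/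
lemma rel_AA {p : ℤ} {V : ℤ[X]} {f k : ℕ} {b : ℤ} (hV : V.natDegree ≤ f) (hk : 1 ≤ k)
    (hb : b = 0 ∨ 2 ≤ k) (hp : p ≠ 0) {x : ℂ} (hx : x ≠ 0) :
    x ^ (2 * (f + k)) * aeval (1 / x) (AA p V f b) + (p : ℂ) ^ (f + k) * aeval (x / p) (AA p V f b)
      = aeval x (PP p V f k b) := by
  have hpc : (p : ℂ) ≠ 0 := by exact_mod_cast hp
  have e1 : x ^ (2 * (f + k)) * aeval (1 / x) (∑ i ∈ Finset.range (f + 1), C (V.coeff i) * X ^ (f - i))
      = x ^ (2 * k + f) * aeval x V := by
    rw [aeval_range hV, map_sum, Finset.mul_sum, Finset.mul_sum]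
    apply Finset.sum_congr rfl
    intro i hi
    have hi' : i ≤ f := by
      have := Finset.mem_range.1 hi
      omega
    simp only [map_mul, map_pow, aeval_X, eq_intCast, map_intCast]
    have h1 : x ^ (2 * (f + k)) = x ^ (2 * k + f) * x ^ i * x ^ (f - i) := by
      rw [← pow_add, ← pow_add]
      congr 1
      omega
    rw [h1, one_div, inv_pow]
    have := pow_ne_zero (f - i) hx
    field_simp
  have e2 : (p : ℂ) ^ (f + k) * aeval (x / p) (∑ i ∈ Finset.range (f + 1), C (V.coeff i) * X ^ (f - i))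
      = (p : ℂ) ^ k * aeval x (WW p V f) := by
    rw [WW, map_sum, map_sum, Finset.mul_sum, Finset.mul_sum]
    apply Finset.sum_congr rfl
    intro i hi
    have hi' : i ≤ f := by
      have := Finset.mem_range.1 hi
      omega
    simp only [map_mul, map_pow, aeval_X, eq_intCast, map_intCast]
    have h1 : (p : ℂ) ^ (f + k) = (p : ℂ) ^ k * (p : ℂ) ^ i * (p : ℂ) ^ (f - i) := by
      rw [← pow_add, ← pow_add]
      congr 1
      omega
    rw [h1, div_pow]
    have := pow_ne_zero (f - i) hpc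
    push_cast
    field_simp
  unfold AA PP
  rw [map_add (aeval (1 / x)), map_add (aeval (x / (p : ℂ))), mul_add (x ^ (2 * (f + k))),
    mul_add ((p : ℂ) ^ (f + k)), e1, e2]
  simp only [map_add, map_mul, map_pow, aeval_X, eq_intCast, map_intCast]
  rcases hb with hb | hb
  · subst hb
    simp
  · obtain ⟨j, rfl⟩ : ∃ j, k = j + 2 := ⟨k - 2, by omega⟩
    have e3 : 2 * (j + 2) + f - 2 = f + 2 * j + 2 := by omega
    have e4 : j + 2 - 1 = j + 1 := by omega
    have e5 : x ^ (2 * (f + (j + 2))) = x ^ (f + 2 * j + 2) * x ^ (f + 2) := by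
      rw [← pow_add]
      congr 1
      omega
    have e6 : (p : ℂ) ^ (f + (j + 2)) = (p : ℂ) ^ j * (p : ℂ) ^ (f + 2) := by
      rw [← pow_add]
      congr 1
      omega
    rw [e3, e4, e5, e6, one_div, inv_pow, div_pow]
    have h1 := pow_ne_zero (f + 2) hpc
    have h2 := pow_ne_zero (f + 2) hx
    push_cast
    field_simp
    ring

end Pool.Agent.TH343.PR
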