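import Pool.Agent.TH343.PR.Basic

/-! # Irreducibility: the number field part -/

set_option autoImplicit false

namespace Pool.Agent.TH343.PR

open Polynomial

/-- the ring of algebraic integers of `K` -/
abbrev OO (K : Type*) [Field K] : Subalgebra ℤ K := integralClosure ℤ K

section small

variable {K : Type*} [Field K] [NumberField K]

lemma eq_zero_of_small {t : K} (ht : IsIntegral ℤ t) (h : ∀ σ : K →+* ℂ, ‖σ t‖ < 1) : t = 0 := by
  have h1 : IsIntegral ℤ (Algebra.norm ℚ t) := Algebra.isIntegral_norm ℚ ht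
  obtain ⟨n, hn⟩ := IsIntegrallyClosed.isIntegral_iff.1 h1
  have h2 : algebraMap ℚ ℂ (Algebra.norm ℚ t) = ∏ σ : K →ₐ[ℚ] ℂ, σ t :=
    Algebra.norm_eq_prod_embeddings ℚ ℂ t
  have σ0 : K →ₐ[ℚ] ℂ := IsAlgClosed.lift
  have h3 : ‖∏ σ : K →ₐ[ℚ] ℂ, σ t‖ < 1 := by
    classical
    rw [norm_prod, ← Finset.mul_prod_erase Finset.univ _ (Finset.mem_univ σ0)]
    have h4 : ∏ σ ∈ Finset.univ.erase σ0, ‖σ t‖ ≤ 1 := by
      apply Finset.prod_le_one
      · intro σ _
        exact norm_nonneg _
      · intro σ _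
        exact (h (σ : K →+* ℂ)).le
    have h5 : ‖σ0 t‖ < 1 := h (σ0 : K →+* ℂ)
    have h6 : 0 ≤ ∏ σ ∈ Finset.univ.erase σ0, ‖σ t‖ :=
      Finset.prod_nonneg (fun _ _ => norm_nonneg _)
    nlinarith [norm_nonneg (σ0 t)]
  rw [← h2, ← hn] at h3
  have h4 : ‖(n : ℂ)‖ < 1 := by simpa using h3
  rw [Complex.norm_intCast] at h4
  have h5 : |n| < 1 := by exact_mod_cast h4
  have h6 : n = 0 := Int.abs_lt_one_iff.1 h5
  rw [h6, map_zero] at hn
  exact (Algebra.norm_eq_zero_iff).1 hn.symm

lemma key {p : ℕ} (hp : p.Prime) (hp17 : 17 ≤ p) {s r : OO K} {a : ℤ}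
    (ha : ¬ (p : ℤ) ∣ a) (hb : ∀ σ : K →+* ℂ, ‖σ (s : K)‖ ≤ 4)
    (h : ((a : OO K) * s) ^ 2 = (p : OO K) * r) : s = 0 := by
  have hcop : IsCoprime (a ^ 2) (p : ℤ) := by
    apply IsCoprime.pow_left
    rw [isCoprime_comm]
    exact (Prime.coprime_iff_not_dvd (Nat.prime_iff_prime_int.1 hp)).2 ha
  obtain ⟨u, v, huv⟩ := hcop
  have h1 : s ^ 2 = (p : OO K) * (u * r + v * s ^ 2) := by
    have huv' : (u : OO K) * (a : OO K) ^ 2
        + v * (p : OO K) = 1 := by
      exact_mod_cast congrArg (Int.cast : ℤ → OO K) huv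
    linear_combination (-s ^ 2) * huv' + (u : OO K) * h
  set t : OO K := u * r + v * s ^ 2 with ht
  have hp0 : (0 : ℝ) < p := by exact_mod_cast hp.pos
  have h17 : (17 : ℝ) ≤ p := by exact_mod_cast hp17
  have h2 : (t : K) = 0 := by
    apply eq_zero_of_small t.2
    intro σ
    have h3 : ‖σ ((s ^ 2 : OO K) : K)‖ = ‖σ (((p : OO K) * t : OO K) : K)‖ := by rw [h1]
    push_cast at h3
    rw [map_pow, norm_pow, map_mul, map_natCast, norm_mul, Complex.norm_natCast] at h3
    have h4 : ‖σ (s : K)‖ ^ 2 ≤ 16 := by nlinarith [hb σ, norm_nonneg (σ (s : K))]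
    rw [h3] at h4
    by_contra hcon
    rw [not_lt] at hcon
    nlinarith
  have h3 : t = 0 := by
    exact_mod_cast h2
  rw [h3, mul_zero] at h1
  exact pow_eq_zero_iff (two_ne_zero) |>.1 h1

end small

/-- if `p` divides a power of `x`, then `V(x)` is a unit mod `p` -/
lemma unit_mod {O : Type*} [CommRing O] {p : ℕ} (hp : p.Prime) {V : ℤ[X]}
    (hV0 : ¬ (p : ℤ) ∣ V.coeff 0) {x : O} {d : ℕ} (hd : (p : O) ∣ x ^ d) :
    ∃ c d' : O, aeval x V * c = 1 + p * d' := by
  obtain ⟨q, hq⟩ := hd
  set y : O := -(x * aeval x V.divX) with hy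
  have hVy : aeval x V = (V.coeff 0 : O) - y := by
    conv_lhs => rw [← divX_mul_X_add V]
    simp only [map_add, map_mul, aeval_X, eq_intCast, map_intCast, hy]
    ring
  have hyd : ∃ t, y ^ d = p * t := by
    refine ⟨(-1) ^ d * q * (aeval x V.divX) ^ d, ?_⟩
    rw [hy, neg_pow, mul_pow, hq]
    ring
  obtain ⟨t, ht⟩ := hyd
  obtain ⟨s, hs⟩ := sub_dvd_pow_sub_pow (V.coeff 0 : O) y d
  have hcop : IsCoprime (V.coeff 0 ^ d) (p : ℤ) := by
    apply IsCoprime.pow_left
    rw [isCoprime_comm]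
    exact (Prime.coprime_iff_not_dvd (Nat.prime_iff_prime_int.1 hp)).2 hV0
  obtain ⟨u, v, huv⟩ := hcop
  have huv' : (u : O) * (V.coeff 0 : O) ^ d + v * (p : O) = 1 := by
    exact_mod_cast congrArg (Int.cast : ℤ → O) huv
  refine ⟨s * u, -v - t * u, ?_⟩
  rw [hVy]
  linear_combination (-(u : O)) * hs + huv' - (u : O) * ht

section integral

variable {K : Type*} [Field K]

/-- `x / x'` is integral -/
lemma w_integral {p : ℕ} {V : ℤ[X]} {k : ℕ} {b : ℤ} (hk : 1 ≤ k)
    (hb : b = 0 ∨ 2 ≤ k) {x x' c d' : OO K} (hx' : x' ≠ 0)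
    (hxx : x * x' = (p : OO K))
    (hP : x ^ k * aeval x V + x' ^ k * aeval x' V
      + (b : OO K) * (V.coeff 0 : OO K)
        * (x ^ (k - 1) * x' + x * x' ^ (k - 1)) = 0)
    (hc : aeval x V * c = 1 + p * d') : IsIntegral ℤ ((x : K) / (x' : K)) := by
  have hx'K : (x' : K) ≠ 0 := by
    simpa using hx'
  set w : K := (x : K) / (x' : K) with hw
  have hxw : (x : K) = w * x' := by
    rw [hw, div_mul_cancel₀ _ hx'K]
  have hxxK : (x : K) * x' = (p : K) := by
    have := congrArg (algebraMap (OO K) K) hxx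
    simpa using this
  have hPK : (x : K) ^ k * ((aeval x V : OO K) : K) + (x' : K) ^ k * ((aeval x' V : OO K) : K)
      + (b : K) * (V.coeff 0 : K) * ((x : K) ^ (k - 1) * x' + x * (x' : K) ^ (k - 1)) = 0 := by
    have := congrArg (algebraMap (OO K) K) hP
    simpa using this
  have hcK : ((aeval x V : OO K) : K) * c = 1 + (p : K) * d' := by
    have := congrArg (algebraMap (OO K) K) hc
    simpa using this
  set A : K := ((aeval x V : OO K) : K) with hA
  set A' : K := ((aeval x' V : OO K) : K) with hA'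
  obtain ⟨j, rfl⟩ : ∃ j, k = j + 1 := ⟨k - 1, by omega⟩
  have e1 : j + 1 - 1 = j := by omega
  rw [e1] at hPK
  -- the equation for w
  have hpw : (p : K) * w = (x : K) ^ 2 := by
    rw [← hxxK, hxw]
    ring
  have hE : w ^ (j + 1) + (((d' : K) * (x : K) ^ 2) * w ^ j + (c : K) * A')
      + (b : K) * (V.coeff 0 : K) * c * (w ^ j + w) = 0 := by
    have hE0 : w ^ (j + 1) * A + A' + (b : K) * (V.coeff 0 : K) * (w ^ j + w) = 0 := by
      have h1 : (x' : K) ^ (j + 1) * (w ^ (j + 1) * A + A'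
          + (b : K) * (V.coeff 0 : K) * (w ^ j + w)) = 0 := by
        rw [← hPK]
        rcases hb with hb | hb
        · subst hb
          rw [hxw]
          push_cast
          ring
        · rw [hxw]
          have : w ^ j = w ^ j := rfl
          ring
      exact (mul_eq_zero.1 h1).resolve_left (pow_ne_zero _ hx'K)
    linear_combination (c : K) * hE0 - (w ^ (j + 1)) * hcK - (d' : K) * w ^ j * hpw
  have hint : IsIntegral (OO K) w := by
    rcases hb with hb | hb
    · subst hb
      refine ⟨X ^ (j + 1) + (C (d' * x ^ 2) * X ^ j + C (c * aeval x' V)), ?_, ?_⟩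
      · apply monic_X_pow_add
        apply (degree_add_le _ _).trans_lt
        apply max_lt
        · exact (degree_C_mul_X_pow_le _ _).trans_lt (by exact_mod_cast Nat.lt_succ_self j)
        · exact degree_C_le.trans_lt (by exact_mod_cast Nat.succ_pos j)
      · simp only [eval₂_add, eval₂_mul, eval₂_pow, eval₂_X, eval₂_C, map_mul, map_pow]
        have h0 : ((0 : ℤ) : K) = 0 := by simp
        rw [h0] at hE
        simp only [zero_mul, add_zero] at hE
        exact hE
    · obtain ⟨e, he⟩ : ∃ e : OO K, (e : K) = (b : K) * (V.coeff 0 : K) * c :=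
        ⟨(b : OO K) * V.coeff 0 * c, by push_cast; rfl⟩
      refine ⟨X ^ (j + 1) + (C (d' * x ^ 2 + e) * X ^ j
        + (C e * X ^ 1 + C (c * aeval x' V))), ?_, ?_⟩
      · apply monic_X_pow_add
        apply (degree_add_le _ _).trans_lt
        apply max_lt
        · exact (degree_C_mul_X_pow_le _ _).trans_lt (by exact_mod_cast Nat.lt_succ_self j)
        · apply (degree_add_le _ _).trans_lt
          apply max_lt
          · exact (degree_C_mul_X_pow_le _ _).trans_lt (by exact_mod_cast (by omega : 1 < j + 1))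
          · exact degree_C_le.trans_lt (by exact_mod_cast Nat.succ_pos j)
      · simp only [eval₂_add, eval₂_mul, eval₂_pow, eval₂_X, eval₂_C, map_mul, map_pow, map_add]
        have hE' : w ^ (j + 1) + (((d' : K) * (x : K) ^ 2 + (e : K)) * w ^ j
          + ((e : K) * w ^ 1 + (c : K) * A')) = 0 := by
          rw [he]
          linear_combination hE
        exact hE'
  exact isIntegral_trans w hint

end integral

section core

variable {K : Type*} [Field K] [NumberField K]

/-- the descent on the coefficients -/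
lemma descent {p : ℕ} (hp : p.Prime) (hp17 : 17 ≤ p) {k : ℕ}
    {x x' w v : OO K} (hx0 : x ≠ 0)
    (hxv : x * v = x') (hx2 : x ^ 2 = p * w)
    (hw : ∀ σ : K →+* ℂ, ‖σ (w : K)‖ = 1) (hv : ∀ σ : K →+* ℂ, ‖σ (v : K)‖ = 1) :
    ∀ (n : ℕ) (U : ℤ[X]) (i : ℕ), (∀ j, n ≤ j → U.coeff j = 0) →
      (∀ j, U.coeff j = 0 ∨ ¬ (p : ℤ) ∣ U.coeff j) →
      w ^ k * aeval x U + v ^ i * aeval x' U = 0 →
      ∀ j, (U.coeff j : OO K) * (w ^ k + v ^ (i + j)) = 0 := by
  intro n
  induction n with
  | zero =>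
    intro U i hn _ _ j
    rw [hn j (Nat.zero_le j)]
    simp
  | succ n ih =>
    intro U i hn hc h j
    have e1 : aeval x U = (U.coeff 0 : OO K) + x * aeval x U.divX := by
      conv_lhs => rw [← divX_mul_X_add U]
      simp only [map_add, map_mul, aeval_X, eq_intCast, map_intCast]
      ring
    have e2 : aeval x' U = (U.coeff 0 : OO K) + x' * aeval x' U.divX := by
      conv_lhs => rw [← divX_mul_X_add U]
      simp only [map_add, map_mul, aeval_X, eq_intCast, map_intCast]
      ring
    have h1 : (U.coeff 0 : OO K) * (w ^ k + v ^ i)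
        = -(x * (w ^ k * aeval x U.divX + v ^ (i + 1) * aeval x' U.divX)) := by
      rw [e1, e2, ← hxv] at h
      rw [← hxv]
      linear_combination h
    have h2 : (U.coeff 0 : OO K) * (w ^ k + v ^ i) = 0 := by
      rcases hc 0 with h0 | h0
      · rw [h0]
        simp
      · have h3 : w ^ k + v ^ i = 0 := by
          apply key hp hp17 h0 (r := w * (w ^ k * aeval x U.divX
            + v ^ (i + 1) * aeval x' U.divX) ^ 2)
          · intro σ
            push_cast
            rw [map_add, map_pow, map_pow]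
            apply (norm_add_le _ _).trans
            rw [norm_pow, norm_pow, hw σ, hv σ]
            norm_num
          · rw [h1]
            linear_combination (w ^ k * aeval x U.divX + v ^ (i + 1) * aeval x' U.divX) ^ 2 * hx2
        rw [h3, mul_zero]
    cases j with
    | zero => simpa using h2
    | succ j =>
      rw [h2] at h1
      have h4 : w ^ k * aeval x U.divX + v ^ (i + 1) * aeval x' U.divX = 0 := by
        have := neg_eq_zero.1 h1.symm
        exact (mul_eq_zero.1 this).resolve_left hx0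
      have h5 := ih U.divX (i + 1) (by
        intro j hj
        rw [coeff_divX]
        exact hn _ (by omega)) (by
        intro j
        rw [coeff_divX]
        exact hc _) h4 j
      rw [coeff_divX] at h5
      have h6 : i + 1 + j = i + (j + 1) := by omega
      rw [h6] at h5
      exact h5

lemma core {p : ℕ} (hp : p.Prime) (hp17 : 17 ≤ p) {V : ℤ[X]} {f k : ℕ} {b : ℤ} (hf : 1 ≤ f)
    (hVd : V.natDegree = f) (hVm : V.Monic) (hV1 : V.coeff (f - 1) = 1)
    (hV0 : ¬ (p : ℤ) ∣ V.coeff 0) (hVi : ∀ i, V.coeff i = 0 ∨ ¬ (p : ℤ) ∣ V.coeff i)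
    (hk : 1 ≤ k) (hb : b = 0 ∨ (2 ≤ k ∧ 2 ≤ f ∧ b ^ 2 = 1))
    {x x' : OO K} (hxx : x * x' = (p : OO K))
    (hσ : ∀ σ : K →+* ℂ, ‖σ (x : K)‖ ^ 2 = p)
    (hP : x ^ k * aeval x V + x' ^ k * aeval x' V
      + (b : OO K) * (V.coeff 0 : OO K)
        * (x ^ (k - 1) * x' + x * x' ^ (k - 1)) = 0)
    {d : ℕ} (hd : (p : OO K) ∣ x ^ d) (hd' : (p : OO K) ∣ x' ^ d) :
    False := by
  have hp0 : (p : OO K) ≠ 0 := by
    exact_mod_cast hp.ne_zero
  have hx0 : x ≠ 0 := by
    rintro rfl
    rw [zero_mul] at hxx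
    exact hp0 hxx.symm
  have hx'0 : x' ≠ 0 := by
    rintro rfl
    rw [mul_zero] at hxx
    exact hp0 hxx.symm
  have hx0K : (x : K) ≠ 0 := by simpa using hx0
  have hx'0K : (x' : K) ≠ 0 := by simpa using hx'0
  have hb' : b = 0 ∨ 2 ≤ k := by
    rcases hb with hb | hb
    · exact Or.inl hb
    · exact Or.inr hb.1
  obtain ⟨c, d', hc⟩ := unit_mod hp hV0 hd
  obtain ⟨c2, d2', hc2⟩ := unit_mod hp hV0 hd'
  have hwi := w_integral hk hb' hx'0 hxx hP hc
  have hvi := w_integral (b := b) hk hb' hx0 (by rw [mul_comm]; exact hxx) (by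
    rw [← hP]
    ring) hc2
  set w : OO K := ⟨(x : K) / (x' : K), hwi⟩ with hw
  set v : OO K := ⟨(x' : K) / (x : K), hvi⟩ with hv
  have hwx : w * x' = x := by
    apply Subtype.ext
    show (x : K) / (x' : K) * (x' : K) = x
    field_simp
  have hxv : x * v = x' := by
    apply Subtype.ext
    show (x : K) * ((x' : K) / (x : K)) = x'
    field_simp
  have hwv : w * v = 1 := by
    apply Subtype.ext
    show (x : K) / (x' : K) * ((x' : K) / (x : K)) = 1
    field_simp
  have hx2 : x ^ 2 = p * w := by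
    rw [← hxx]
    linear_combination (-x) * hwx
  have hx'2 : x' ^ 2 = p * v := by
    rw [← hxx]
    linear_combination (-x') * hxv
  have hxxK : (x : K) * x' = (p : K) := by
    have := congrArg (algebraMap (OO K) K) hxx
    simpa using this
  have hp0r : (0 : ℝ) < p := by exact_mod_cast hp.pos
  have hwn : ∀ σ : K →+* ℂ, ‖σ (w : K)‖ = 1 := by
    intro σ
    have h1 : ‖σ (x : K)‖ * ‖σ (x' : K)‖ = p := by
      rw [← norm_mul, ← map_mul, hxxK, map_natCast, Complex.norm_natCast]
    have h2 := hσ σ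
    have h3 : 0 < ‖σ (x : K)‖ := norm_pos_iff.2 (by simpa using hx0K)
    have h4 : ‖σ (x' : K)‖ = ‖σ (x : K)‖ := by
      have : ‖σ (x : K)‖ * ‖σ (x' : K)‖ = ‖σ (x : K)‖ * ‖σ (x : K)‖ := by
        rw [h1, ← h2]
        ring
      exact mul_left_cancel₀ h3.ne' this
    show ‖σ ((x : K) / (x' : K))‖ = 1
    rw [map_div₀, norm_div, h4, div_self h3.ne']
  have hvn : ∀ σ : K →+* ℂ, ‖σ (v : K)‖ = 1 := by
    intro σ
    have h1 : ‖σ (w : K)‖ * ‖σ (v : K)‖ = 1 := by
      rw [← norm_mul, ← map_mul]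
      have : (w : K) * (v : K) = 1 := by
        have := congrArg (algebraMap (OO K) K) hwv
        simpa using this
      rw [this, map_one, norm_one]
    rw [hwn σ, one_mul] at h1
    exact h1
  -- the equation divided by x'^k
  obtain ⟨j, rfl⟩ : ∃ j, k = j + 1 := ⟨k - 1, by omega⟩
  have ej : j + 1 - 1 = j := by omega
  rw [ej] at hP
  have hE0 : w ^ (j + 1) * aeval x V + aeval x' V + (b : OO K) * (V.coeff 0 : OO K) * (w ^ j + w) = 0 := by
    have h1 : x' ^ (j + 1) * (w ^ (j + 1) * aeval x V + aeval x' V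
        + (b : OO K) * (V.coeff 0 : OO K) * (w ^ j + w)) = 0 := by
      rw [← hP]
      have f1 : x ^ (j + 1) = w ^ (j + 1) * x' ^ (j + 1) := by rw [← hwx]; ring
      have f2 : x ^ j = w ^ j * x' ^ j := by rw [← hwx]; ring
      rw [f1, f2]
      linear_combination ((b : OO K) * (V.coeff 0 : OO K) * x' ^ j) * hwx
    exact (mul_eq_zero.1 h1).resolve_left (pow_ne_zero _ hx'0)
  have e1 : aeval x V = (V.coeff 0 : OO K) + x * aeval x V.divX := by
    conv_lhs => rw [← divX_mul_X_add V]
    simp only [map_add, map_mul, aeval_X, eq_intCast, map_intCast]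
    ring
  have e2 : aeval x' V = (V.coeff 0 : OO K) + x' * aeval x' V.divX := by
    conv_lhs => rw [← divX_mul_X_add V]
    simp only [map_add, map_mul, aeval_X, eq_intCast, map_intCast]
    ring
  have hbn : ‖((b : ℤ) : ℂ)‖ ≤ 1 := by
    rw [Complex.norm_intCast]
    rcases hb with hb | ⟨_, _, hb⟩
    · rw [hb]
      simp
    · have : |(b : ℝ)| ^ 2 = 1 := by
        rw [sq_abs]
        exact_mod_cast hb
      nlinarith [abs_nonneg (b : ℝ)]
  have hT : w ^ (j + 1) + 1 + (b : OO K) * (w ^ j + w) = 0 := by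
    apply key hp hp17 hV0 (r := w ^ (2 * (j + 1)) * w * (aeval x V.divX) ^ 2
      + 2 * w ^ (j + 1) * aeval x V.divX * aeval x' V.divX + v * (aeval x' V.divX) ^ 2)
    · intro σ
      push_cast
      rw [map_add, map_add, map_mul, map_add, map_pow, map_pow, map_one, map_intCast]
      have n1 : ‖σ (w : K) ^ (j + 1)‖ = 1 := by rw [norm_pow, hwn σ, one_pow]
      have n2 : ‖σ (w : K) ^ j‖ = 1 := by rw [norm_pow, hwn σ, one_pow]
      have n3 : ‖σ (w : K) ^ j + σ (w : K)‖ ≤ 2 := by
        apply (norm_add_le _ _).trans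
        rw [n2, hwn σ]
        norm_num
      have n4 : ‖(b : ℂ) * (σ (w : K) ^ j + σ (w : K))‖ ≤ 2 := by
        rw [norm_mul]
        nlinarith [norm_nonneg (b : ℂ), norm_nonneg (σ (w : K) ^ j + σ (w : K))]
      have n5 : ‖σ (w : K) ^ (j + 1) + 1‖ ≤ 2 := by
        apply (norm_add_le _ _).trans
        rw [n1, norm_one]
        norm_num
      apply (norm_add_le _ _).trans
      linarith
    · have h1 : (V.coeff 0 : OO K) * (w ^ (j + 1) + 1 + (b : OO K) * (w ^ j + w))
          = -(w ^ (j + 1) * (x * aeval x V.divX) + x' * aeval x' V.divX) := by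
        rw [e1, e2] at hE0
        linear_combination hE0
      rw [h1]
      linear_combination (w ^ (2 * (j + 1)) * (aeval x V.divX) ^ 2) * hx2
        + (2 * w ^ (j + 1) * aeval x V.divX * aeval x' V.divX) * hxx
        + (aeval x' V.divX) ^ 2 * hx'2
  have hS : w ^ (j + 1) * aeval x V.divX + v ^ 1 * aeval x' V.divX = 0 := by
    have h1 : x * (w ^ (j + 1) * aeval x V.divX + v ^ 1 * aeval x' V.divX) = 0 := by
      rw [e1, e2] at hE0
      linear_combination hE0 - (V.coeff 0 : OO K) * hT + (aeval x' V.divX) * hxv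
    exact (mul_eq_zero.1 h1).resolve_left hx0
  have hD := descent hp hp17 hx0 hxv hx2 hwn hvn f V.divX 1 (by
    intro i hi
    rw [coeff_divX]
    exact coeff_eq_zero_of_natDegree_lt (by omega)) (by
    intro i
    rw [coeff_divX]
    exact hVi _) hS
  have hDf : w ^ (j + 1) + v ^ f = 0 := by
    have h1 := hD (f - 1)
    rw [coeff_divX] at h1
    have e3 : f - 1 + 1 = f := by omega
    have e4 : 1 + (f - 1) = f := by omega
    rw [e3, e4] at h1
    have h2 : V.coeff f = 1 := by
      rw [← hVd]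
      exact hVm.coeff_natDegree
    rw [h2, Int.cast_one, one_mul] at h1
    exact h1
  have hv1 : v = 1 := by
    have hvf : v ^ f = v ^ (f - 1) := by
      by_cases hf2 : 2 ≤ f
      · have h1 := hD (f - 2)
        rw [coeff_divX] at h1
        have e3 : f - 2 + 1 = f - 1 := by omega
        have e4 : 1 + (f - 2) = f - 1 := by omega
        rw [e3, e4, hV1, Int.cast_one, one_mul] at h1
        linear_combination hDf - h1
      · have hf1 : f = 1 := by omega
        rcases hb with hb | hb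
        · rw [hb] at hT
          rw [hf1] at hDf ⊢
          simp only [Int.cast_zero, zero_mul, add_zero] at hT
          simp only [pow_one, Nat.sub_self, pow_zero] at hDf ⊢
          linear_combination hDf - hT
        · omega
    have h3 : v ^ (f - 1) * v = v ^ (f - 1) * 1 := by
      rw [← pow_succ, mul_one]
      have : f - 1 + 1 = f := by omega
      rw [this, hvf]
    have hv0 : v ≠ 0 := by
      intro h
      rw [h, mul_zero] at hwv
      exact zero_ne_one hwv
    exact mul_left_cancel₀ (pow_ne_zero _ hv0) h3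
  have hw1 : w = 1 := by
    rw [hv1, mul_one] at hwv
    exact hwv
  rw [hw1, hv1] at hDf
  have h2 : (2 : OO K) = 0 := by
    simp only [one_pow] at hDf
    linear_combination hDf
  exact two_ne_zero h2

end core

end Pool.Agent.TH343.PR
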