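import Pool.Agent.TH343.PR.Basic

/-! # Zero-freeness of the reversed polynomial on the disc of radius `p^(-1/2)` -/

set_option autoImplicit false

namespace Pool.Agent.TH343.PR

open Polynomial

lemma re_bound (w : ℂ) (hw : ‖w‖ ≤ 1) : -(9 / 8) ≤ (w + w ^ 2).re := by
  have h1 : w.re ^ 2 + w.im ^ 2 ≤ 1 := by
    have h2 : ‖w‖ ^ 2 = w.re * w.re + w.im * w.im := by
      rw [Complex.sq_norm, Complex.normSq_apply]
    have h3 : ‖w‖ ^ 2 ≤ 1 := by nlinarith [norm_nonneg w]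
    nlinarith
  have h2 : (w + w ^ 2).re = w.re + (w.re ^ 2 - w.im ^ 2) := by
    simp [pow_two]
  rw [h2]
  nlinarith [sq_nonneg (w.re + 1 / 4)]

lemma aeval_AA_eq (p : ℤ) (V : ℤ[X]) (f : ℕ) (b : ℤ) (z : ℂ) :
    aeval z (AA p V (f + 1) b) = (V.coeff (f + 1) : ℂ) + V.coeff f * z
      + z ^ 2 * ∑ j ∈ Finset.range f, (V.coeff (f - 1 - j) : ℂ) * z ^ j
      + (b : ℂ) * V.coeff 0 * p * z ^ (f + 3) := by
  unfold AA
  rw [map_add, map_sum]
  congr 1
  · rw [← Finset.sum_range_reflect, Finset.sum_range_succ', Finset.sum_range_succ']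
    rw [Finset.mul_sum]
    have : ∀ a b c d : ℂ, a = b → a + c + d = d + c + b := by
      intro a b c d h
      rw [h]
      ring
    have e0 : (aeval z) (C (V.coeff (f + 1 + 1 - 1 - 0)) * X ^ (f + 1 - (f + 1 + 1 - 1 - 0)))
        = (V.coeff (f + 1) : ℂ) := by
      simp
    have e1 : (aeval z) (C (V.coeff (f + 1 + 1 - 1 - (0 + 1))) * X ^ (f + 1 - (f + 1 + 1 - 1 - (0 + 1))))
        = (V.coeff f : ℂ) * z := by
      simp
    rw [e0, e1]
    apply this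
    apply Finset.sum_congr rfl
    intro j hj
    have hj' := Finset.mem_range.1 hj
    have e2 : f + 1 + 1 - 1 - (j + 1 + 1) = f - 1 - j := by omega
    have e3 : f + 1 - (f - 1 - j) = j + 2 := by omega
    rw [e2, e3]
    simp only [map_mul, map_pow, aeval_X, eq_intCast, map_intCast]
    ring
  · simp only [map_mul, map_pow, aeval_X, eq_intCast, map_intCast]

lemma AA_ne_zero {p : ℕ} (hp : 17 ≤ p) {V : ℤ[X]} {f : ℕ} (hf : 1 ≤ f) (hm : V.coeff f = 1)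
    (h1 : V.coeff (f - 1) = 1) (hbd : ∀ i < f, 2 * |V.coeff i| ≤ (p : ℤ) - 1) {b : ℤ}
    (hb : b = 0 ∨ (b ^ 2 = 1 ∧ 0 ≤ b * V.coeff 0 ∧ 2 ≤ f)) {z : ℂ} (hz : ‖z‖ ^ 2 ≤ 1 / (p : ℝ)) :
    aeval z (AA (p : ℤ) V f b) ≠ 0 := by
  have hp0 : (17 : ℝ) ≤ p := by exact_mod_cast hp
  have hpz : (p : ℝ) * ‖z‖ ^ 2 ≤ 1 := by
    rw [le_div_iff₀ (by linarith)] at hz
    linarith
  have hr0 : 0 ≤ ‖z‖ := norm_nonneg z
  have hr4 : ‖z‖ < 1 / 4 := by
    nlinarith
  obtain ⟨m, rfl⟩ : ∃ m, f = m + 1 := ⟨f - 1, by omega⟩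
  have h1' : V.coeff m = 1 := by simpa using h1
  rw [aeval_AA_eq, hm, h1']
  -- bound on the sum
  have hco : ∀ i < m + 1, |(V.coeff i : ℝ)| ≤ ((p : ℝ) - 1) / 2 := by
    intro i hi
    have := hbd i hi
    have h2 : (2 : ℝ) * |(V.coeff i : ℝ)| ≤ (p : ℝ) - 1 := by exact_mod_cast this
    linarith
  have hsum : ‖∑ j ∈ Finset.range m, (V.coeff (m - 1 - j) : ℂ) * z ^ j‖
      ≤ ((p : ℝ) - 1) / 2 * ∑ j ∈ Finset.range m, ‖z‖ ^ j := by
    rw [Finset.mul_sum]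
    apply norm_sum_le_of_le
    intro j hj
    have hj' := Finset.mem_range.1 hj
    rw [norm_mul, norm_pow, Complex.norm_intCast]
    apply mul_le_mul_of_nonneg_right _ (by positivity)
    exact hco _ (by omega)
  have hgeo : (∑ j ∈ Finset.range m, ‖z‖ ^ j) * (1 - ‖z‖) ≤ 1 := by
    rw [geom_sum_mul_neg]
    have : 0 ≤ ‖z‖ ^ m := by positivity
    linarith
  have hgeo0 : 0 ≤ ∑ j ∈ Finset.range m, ‖z‖ ^ j := Finset.sum_nonneg (fun _ _ => by positivity)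
  set S : ℝ := ∑ j ∈ Finset.range m, ‖z‖ ^ j with hS
  have hz2 : ((p : ℝ) - 1) * ‖z‖ ^ 2 ≤ 1 - ‖z‖ ^ 2 := by nlinarith
  have hmain : ‖z ^ 2 * ∑ j ∈ Finset.range m, (V.coeff (m - 1 - j) : ℂ) * z ^ j‖ ≤ (1 + ‖z‖) / 2 := by
    rw [norm_mul, norm_pow]
    have e1 : ‖z‖ ^ 2 * ‖∑ j ∈ Finset.range m, (V.coeff (m - 1 - j) : ℂ) * z ^ j‖
        ≤ ‖z‖ ^ 2 * (((p : ℝ) - 1) / 2 * S) := mul_le_mul_of_nonneg_left hsum (by positivity)
    have e2 : ‖z‖ ^ 2 * (((p : ℝ) - 1) / 2 * S) ≤ (1 - ‖z‖ ^ 2) / 2 * S := by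
      nlinarith [mul_le_mul_of_nonneg_right hz2 hgeo0]
    have e3 : (1 - ‖z‖ ^ 2) / 2 * S = (1 + ‖z‖) / 2 * (S * (1 - ‖z‖)) := by ring
    have e4 : (1 + ‖z‖) / 2 * (S * (1 - ‖z‖)) ≤ (1 + ‖z‖) / 2 * 1 :=
      mul_le_mul_of_nonneg_left hgeo (by positivity)
    linarith
  rcases hb with hb | ⟨hb1, hb2, hb3⟩
  · subst hb
    intro h0
    have h3 : (1 : ℂ) = -(z + z ^ 2 * ∑ j ∈ Finset.range m, (V.coeff (m - 1 - j) : ℂ) * z ^ j) := by
      push_cast at h0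
      linear_combination h0
    have h4 : (1 : ℝ) ≤ ‖z‖ + (1 + ‖z‖) / 2 := by
      calc (1 : ℝ) = ‖(1 : ℂ)‖ := by simp
        _ = ‖z + z ^ 2 * ∑ j ∈ Finset.range m, (V.coeff (m - 1 - j) : ℂ) * z ^ j‖ := by
            rw [h3, norm_neg]
        _ ≤ _ := (norm_add_le _ _).trans (add_le_add le_rfl hmain)
    linarith
  · have hbr : ((b : ℝ)) ^ 2 = 1 := by exact_mod_cast hb1
    have hbabs : |(b : ℝ)| = 1 := by
      have : |(b : ℝ)| ^ 2 = 1 := by rw [sq_abs, hbr]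
      nlinarith [abs_nonneg (b : ℝ)]
    by_cases hm2 : 2 ≤ m
    · intro h0
      have hextra : ‖(b : ℂ) * V.coeff 0 * p * z ^ (m + 3)‖ ≤ ‖z‖ / 2 := by
        rw [norm_mul, norm_mul, norm_mul, norm_pow, Complex.norm_intCast, Complex.norm_intCast,
          Complex.norm_natCast, hbabs, one_mul]
        have e1 : ‖z‖ ^ (m + 3) ≤ ‖z‖ ^ 5 := pow_le_pow_of_le_one hr0 (by linarith) (by omega)
        have e2 : |(V.coeff 0 : ℝ)| ≤ ((p : ℝ) - 1) / 2 := hco 0 (by omega)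
        have e3 : |(V.coeff 0 : ℝ)| * p * ‖z‖ ^ (m + 3) ≤ ((p : ℝ) - 1) / 2 * p * ‖z‖ ^ 5 := by
          apply mul_le_mul _ e1 (by positivity) (by nlinarith)
          exact mul_le_mul_of_nonneg_right e2 (by linarith)
        have e4 : ((p : ℝ) - 1) / 2 * p * ‖z‖ ^ 5
            = (((p : ℝ) - 1) * ‖z‖ ^ 2) * (p * ‖z‖ ^ 2) * (‖z‖ / 2) := by ring
        have e5 : (((p : ℝ) - 1) * ‖z‖ ^ 2) * (p * ‖z‖ ^ 2) ≤ 1 := by
          have f1 : ((p : ℝ) - 1) * ‖z‖ ^ 2 ≤ 1 := by nlinarith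
          have f2 : 0 ≤ ((p : ℝ) - 1) * ‖z‖ ^ 2 := by
            apply mul_nonneg (by linarith) (by positivity)
          have f3 : 0 ≤ (p : ℝ) * ‖z‖ ^ 2 := by positivity
          nlinarith
        have e6 : (((p : ℝ) - 1) * ‖z‖ ^ 2) * (p * ‖z‖ ^ 2) * (‖z‖ / 2) ≤ 1 * (‖z‖ / 2) :=
          mul_le_mul_of_nonneg_right e5 (by positivity)
        linarith
      have h3 : (1 : ℂ) = -(z + z ^ 2 * ∑ j ∈ Finset.range m, (V.coeff (m - 1 - j) : ℂ) * z ^ j
          + (b : ℂ) * V.coeff 0 * p * z ^ (m + 3)) := by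
        push_cast at h0
        linear_combination h0
      have h4 : (1 : ℝ) ≤ ‖z‖ + (1 + ‖z‖) / 2 + ‖z‖ / 2 := by
        calc (1 : ℝ) = ‖(1 : ℂ)‖ := by simp
          _ = ‖z + z ^ 2 * ∑ j ∈ Finset.range m, (V.coeff (m - 1 - j) : ℂ) * z ^ j
              + (b : ℂ) * V.coeff 0 * p * z ^ (m + 3)‖ := by
              rw [h3, norm_neg]
          _ ≤ _ := (norm_add_le _ _).trans (add_le_add
              ((norm_add_le _ _).trans (add_le_add le_rfl hmain)) hextra)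
      linarith
    · obtain rfl : m = 1 := by omega
      intro h0
      -- f = 2
      set c : ℝ := (b : ℝ) * V.coeff 0 with hc
      have hc0 : 0 ≤ c := by
        rw [hc]
        exact_mod_cast hb2
      have hc1 : c ≤ ((p : ℝ) - 1) / 2 := by
        have e2 := hco 0 (by omega)
        have e3 : |c| = |(V.coeff 0 : ℝ)| := by
          rw [hc, abs_mul, hbabs, one_mul]
        rw [abs_of_nonneg hc0] at e3
        linarith
      set w : ℂ := (b : ℂ) * p * z ^ 2 with hw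
      have hw1 : ‖w‖ ≤ 1 := by
        rw [hw, norm_mul, norm_mul, norm_pow, Complex.norm_intCast, Complex.norm_natCast, hbabs,
          one_mul]
        exact hpz
      have hbc : ((b : ℂ)) ^ 2 = 1 := by exact_mod_cast hb1
      have hpc : (p : ℂ) ≠ 0 := by
        have : (p : ℝ) ≠ 0 := by linarith
        exact_mod_cast this
      have hA : (1 : ℂ) + z + ((c / p : ℝ) : ℂ) * (w + w ^ 2) = 0 := by
        rw [← h0, hw, hc]
        push_cast
        simp only [Finset.range_one, Finset.sum_singleton, pow_zero, mul_one]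
        field_simp
        linear_combination ((V.coeff 0 : ℂ) * z ^ 2 + (V.coeff 0 : ℂ) * (b : ℂ) * p * z ^ 4) * hbc
      have hre := congrArg Complex.re hA
      rw [Complex.add_re, Complex.add_re, Complex.re_ofReal_mul] at hre
      have h5 := re_bound w hw1
      have h6 : -‖z‖ ≤ z.re := (abs_le.1 (Complex.abs_re_le_norm z)).1
      have h7 : c / p ≤ 1 / 2 := by
        rw [div_le_iff₀ (by linarith)]
        linarith
      have h8 : 0 ≤ c / p := by positivity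
      simp only [Complex.one_re, Complex.zero_re] at hre
      nlinarith [mul_le_mul_of_nonneg_left h5 h8]

end Pool.Agent.TH343.PR
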