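import Pool.Agent.TH343.PR.Weil
import Pool.Agent.TH343.PR.Pos
import Pool.Agent.TH343.PR.Irred

/-! # The Weil property and irreducibility of the polynomials `PP` -/

set_option autoImplicit false

namespace Pool.Agent.TH343.PR

open Polynomial

/-- the standing hypotheses on the data -/
structure Dat (p : ℕ) (V : ℤ[X]) (f k : ℕ) (b : ℤ) : Prop where
  hp : p.Prime
  hp17 : 17 ≤ p
  hf : 1 ≤ f
  hk : 1 ≤ k
  hVd : V.natDegree = f
  hVm : V.Monic
  hV1 : V.coeff (f - 1) = 1
  hVb : ∀ i < f, 2 * |V.coeff i| ≤ (p : ℤ) - 1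
  hVu : Irreducible (V.map (Int.castRingHom (ZMod p)))
  hV0 : ¬ (p : ℤ) ∣ V.coeff 0
  hb : b = 0 ∨ (b ^ 2 = 1 ∧ 0 ≤ b * V.coeff 0 ∧ 2 ≤ f ∧ 2 ≤ k)

variable {p : ℕ} {V : ℤ[X]} {f k : ℕ} {b : ℤ}

lemma Dat.hb' (D : Dat p V f k b) : b = 0 ∨ 2 ≤ k := by
  rcases D.hb with h | h
  · exact Or.inl h
  · exact Or.inr h.2.2.2

lemma Dat.hVi (D : Dat p V f k b) (i : ℕ) : V.coeff i = 0 ∨ ¬ (p : ℤ) ∣ V.coeff i := by
  rcases lt_trichotomy i f with h | h | h
  · by_cases h0 : V.coeff i = 0
    · exact Or.inl h0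
    · right
      intro hd
      have h1 := Int.le_of_dvd (abs_pos.2 h0) ((dvd_abs _ _).2 hd)
      have h2 := D.hVb i h
      have h3 := D.hp17
      omega
  · right
    have h1 : V.coeff i = 1 := by
      rw [h, ← D.hVd]
      exact D.hVm.coeff_natDegree
    rw [h1]
    intro hd
    have := Int.le_of_dvd one_pos hd
    have h3 := D.hp17
    omega
  · left
    apply coeff_eq_zero_of_natDegree_lt
    rw [D.hVd]
    exact h

lemma Dat.coeff_f (D : Dat p V f k b) : V.coeff f = 1 := by
  have := D.hVm.coeff_natDegree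
  rwa [D.hVd] at this

lemma Dat.aeval_zero (D : Dat p V f k b) {R : Type*} [CommRing R] :
    aeval (0 : R) (PP (p : ℤ) V f k b) = (p : R) ^ (f + k) := by
  have hk := D.hk
  have hf := D.hf
  have h1 : aeval (0 : R) (WW (p : ℤ) V f) = (p : R) ^ f := by
    unfold WW
    rw [map_sum, Finset.sum_range_succ, Finset.sum_eq_zero]
    · simp only [map_mul, map_pow, aeval_X, eq_intCast, map_intCast, D.coeff_f]
      simp
    · intro i hi
      have := Finset.mem_range.1 hi
      simp only [map_mul, map_pow, aeval_X]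
      rw [zero_pow (by omega), mul_zero]
  unfold PP
  simp only [map_add, map_mul, map_pow, aeval_X, eq_intCast, map_intCast, h1]
  rw [zero_pow (by omega), zero_pow (by omega), zero_pow (by omega)]
  push_cast
  ring

lemma Dat.ne_zero_of_root (D : Dat p V f k b) {R : Type*} [CommRing R] [IsDomain R] [CharZero R]
    {x : R} (hx : aeval x (PP (p : ℤ) V f k b) = 0) : x ≠ 0 := by
  rintro rfl
  rw [D.aeval_zero] at hx
  exact (pow_ne_zero _ (by exact_mod_cast D.hp.ne_zero)) hx

/-- all complex roots have absolute value `√p` -/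
lemma Dat.norm_root (D : Dat p V f k b) {x : ℂ} (hx : aeval x (PP (p : ℤ) V f k b) = 0) :
    ‖x‖ ^ 2 = p := by
  have hx0 := D.ne_zero_of_root hx
  have hp0 : (0 : ℝ) < p := by exact_mod_cast D.hp.pos
  have hf := D.hf
  have hk := D.hk
  apply weil (AA (p : ℤ) V f b) (f + k) (by omega) (natDegree_AA_le _ _ (by omega) (by
    rcases D.hb with h | h
    · exact Or.inl h
    · right
      omega)) p hp0 (fun z hz => AA_ne_zero D.hp17 D.hf D.coeff_f D.hV1 D.hVb (by
    rcases D.hb with h | h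
    · exact Or.inl h
    · exact Or.inr ⟨h.1, h.2.1, h.2.2.1⟩) hz) x hx0
  have := rel_AA (p := (p : ℤ)) (b := b) D.hVd.le D.hk D.hb' (by exact_mod_cast D.hp.ne_zero) hx0
  rw [hx] at this
  simpa using this

lemma no_factor (D : Dat p V f k b) {G : ℤ[X]} (hGm : G.Monic) (hGd : 1 ≤ G.natDegree)
    (hGP : G ∣ PP (p : ℤ) V f k b)
    (hG : G.map (Int.castRingHom (ZMod p)) = X ^ G.natDegree) : False := by
  obtain ⟨x, hx⟩ := IsAlgClosed.exists_aeval_eq_zero ℂ G (by
    rw [degree_eq_natDegree hGm.ne_zero]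
    exact_mod_cast (by omega : G.natDegree ≠ 0))
  have hxi : IsIntegral ℤ x := ⟨G, hGm, hx⟩
  have hxi' : IsIntegral ℚ x := hxi.tower_top
  set K : IntermediateField ℚ ℂ := IntermediateField.adjoin ℚ {x} with hK
  haveI : FiniteDimensional ℚ K := IntermediateField.adjoin.finiteDimensional hxi'
  haveI : NumberField K := { to_charZero := inferInstance, to_finiteDimensional := inferInstance }
  set y : K := IntermediateField.AdjoinSimple.gen ℚ x with hy
  have hyG : aeval y G = 0 := by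
    apply (algebraMap K ℂ).injective
    rw [map_zero, ← aeval_algebraMap_apply]
    exact hx
  have hyi : IsIntegral ℤ y := ⟨G, hGm, hyG⟩
  have hp0K : (p : K) ≠ 0 := by exact_mod_cast D.hp.ne_zero
  have hrootP : ∀ {R : Type} [CommRing R] {z : R}, aeval z G = 0 →
      aeval z (PP (p : ℤ) V f k b) = 0 := by
    intro R _ z hz
    obtain ⟨Q, hQ⟩ := hGP
    rw [hQ, map_mul, hz, zero_mul]
  have hy0 : y ≠ 0 := D.ne_zero_of_root (hrootP hyG)
  have hσG : ∀ σ : K →+* ℂ, aeval (σ y) G = 0 := by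
    intro σ
    have : aeval (σ y) G = σ (aeval y G) := by
      rw [aeval_def, aeval_def, hom_eval₂]
      congr 1
      ext n
      simp
    rw [this, hyG, map_zero]
  have hσ : ∀ σ : K →+* ℂ, ‖σ y‖ ^ 2 = p := fun σ => D.norm_root (hrootP (hσG σ))
  -- the conjugate
  have hy'G : aeval ((p : K) / y) G = 0 := by
    have σ : K →+* ℂ := algebraMap K ℂ
    apply σ.injective
    have h1 : σ (aeval ((p : K) / y) G) = aeval (σ ((p : K) / y)) G := by
      rw [aeval_def, aeval_def, hom_eval₂]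
      congr 1
      ext n
      simp
    have h2 : σ ((p : K) / y) = starRingEnd ℂ (σ y) := by
      rw [map_div₀, map_natCast]
      have hσy : σ y ≠ 0 := by simpa using hy0
      rw [div_eq_iff hσy]
      have : starRingEnd ℂ (σ y) * σ y = ((‖σ y‖ ^ 2 : ℝ) : ℂ) := by
        rw [mul_comm, Complex.mul_conj, Complex.normSq_eq_norm_sq]
      rw [this, hσ σ]
      simp
    have h3 : ‖aeval (starRingEnd ℂ (σ y)) G‖ = 0 := by
      rw [norm_aeval_conj, hσG σ, norm_zero]
    rw [h1, h2, map_zero]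
    exact norm_eq_zero.1 h3
  have hy'i : IsIntegral ℤ ((p : K) / y) := ⟨G, hGm, hy'G⟩
  set Y : OO K := ⟨y, hyi⟩ with hY
  set Y' : OO K := ⟨(p : K) / y, hy'i⟩ with hY'
  have hYG : aeval Y G = 0 := by
    apply Subtype.ext
    have : ((aeval Y G : OO K) : K) = aeval y G := by
      rw [← Subalgebra.aeval_coe]
    rw [this, hyG]
    rfl
  have hY'G : aeval Y' G = 0 := by
    apply Subtype.ext
    have : ((aeval Y' G : OO K) : K) = aeval ((p : K) / y) G := by
      rw [← Subalgebra.aeval_coe]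
    rw [this, hy'G]
    rfl
  have hYY : Y * Y' = (p : OO K) := by
    apply Subtype.ext
    show y * ((p : K) / y) = _
    rw [mul_div_cancel₀ _ hy0]
    simp
  have hdiv : C (p : ℤ) ∣ G - X ^ G.natDegree := by
    rw [C_dvd_iff_dvd_coeff]
    intro i
    rw [← ZMod.intCast_zmod_eq_zero_iff_dvd]
    have h1 := congrArg (fun q : (ZMod p)[X] => q.coeff i) hG
    simp only [coeff_map, eq_intCast] at h1
    rw [coeff_sub, Int.cast_sub, h1, coeff_X_pow, coeff_X_pow]
    split_ifs <;> simp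
  obtain ⟨H, hH⟩ := hdiv
  have hpow : ∀ Z : OO K, aeval Z G = 0 → (p : OO K) ∣ Z ^ G.natDegree := by
    intro Z hZ
    have h1 := congrArg (aeval Z) hH
    rw [map_sub, hZ, map_pow, aeval_X, map_mul] at h1
    refine ⟨-(aeval Z H), ?_⟩
    have h2 : (aeval Z) (C (p : ℤ)) = (p : OO K) := by
      simp
    rw [h2] at h1
    linear_combination -h1
  have hPY : aeval Y (PP (p : ℤ) V f k b) = 0 := by
    obtain ⟨Q, hQ⟩ := hGP
    rw [hQ, map_mul, hYG, zero_mul]
  have hY0 : Y ≠ 0 := by
    intro h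
    apply hy0
    exact congrArg Subtype.val h
  rw [aeval_PP D.hVd.le D.hk D.hb' (x' := Y') (by rw [hYY]; simp)] at hPY
  have hP := (mul_eq_zero.1 hPY).resolve_left (pow_ne_zero _ hY0)
  exact core D.hp D.hp17 D.hf D.hVd D.hVm D.hV1 D.hV0 D.hVi D.hk (by
    rcases D.hb with h | h
    · exact Or.inl h
    · exact Or.inr ⟨h.2.2.2, h.2.2.1, h.1⟩) hYY hσ hP (hpow Y hYG) (hpow Y' hY'G)

theorem Dat.irreducible (D : Dat p V f k b) : Irreducible (PP (p : ℤ) V f k b) := by
  haveI : Fact p.Prime := ⟨D.hp⟩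
  have hm : (PP (p : ℤ) V f k b).Monic := monic_PP D.hVd D.hVm D.hf D.hk
  have hdeg : (PP (p : ℤ) V f k b).natDegree = 2 * (f + k) := natDegree_PP D.hVd D.hVm D.hf D.hk
  rw [hm.irreducible_iff_natDegree]
  constructor
  · intro h
    rw [h, natDegree_one] at hdeg
    have := D.hf
    omega
  have main : ∀ F G : ℤ[X], F.Monic → G.Monic → F * G = PP (p : ℤ) V f k b →
      V.map (Int.castRingHom (ZMod p)) ∣ F.map (Int.castRingHom (ZMod p)) → G.natDegree = 0 := by
    intro F G hF hG hFG hdvd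
    by_contra hG0
    apply no_factor D hG (by omega) ⟨F, by rw [← hFG, mul_comm]⟩
    obtain ⟨F1, hF1⟩ := hdvd
    have h1 : F.map (Int.castRingHom (ZMod p)) * G.map (Int.castRingHom (ZMod p))
        = X ^ (2 * k + f) * V.map (Int.castRingHom (ZMod p)) := by
      rw [← Polynomial.map_mul, hFG, map_PP D.hk D.hb']
    have hV0 : V.map (Int.castRingHom (ZMod p)) ≠ 0 := D.hVu.ne_zero
    have h2 : F1 * G.map (Int.castRingHom (ZMod p)) = X ^ (2 * k + f) := by
      apply mul_left_cancel₀ hV0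
      rw [hF1] at h1
      linear_combination h1
    have h3 : G.map (Int.castRingHom (ZMod p)) ∣ X ^ (2 * k + f) := ⟨F1, by rw [← h2, mul_comm]⟩
    obtain ⟨i, _, hi⟩ := (dvd_prime_pow prime_X _).1 h3
    have hGm : (G.map (Int.castRingHom (ZMod p))).Monic := hG.map _
    have h4 : G.map (Int.castRingHom (ZMod p)) = X ^ i := eq_of_monic_of_associated hGm
      (monic_X_pow i) hi
    have h5 : G.natDegree = i := by
      rw [← hG.natDegree_map (Int.castRingHom (ZMod p)), h4, natDegree_X_pow]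
    rw [h4, h5]
  intro F G hF hG hFG
  have h1 : F.map (Int.castRingHom (ZMod p)) * G.map (Int.castRingHom (ZMod p))
      = X ^ (2 * k + f) * V.map (Int.castRingHom (ZMod p)) := by
    rw [← Polynomial.map_mul, hFG, map_PP D.hk D.hb']
  have h2 : V.map (Int.castRingHom (ZMod p)) ∣
      F.map (Int.castRingHom (ZMod p)) * G.map (Int.castRingHom (ZMod p)) := by
    rw [h1]
    exact dvd_mul_left _ _
  rcases D.hVu.prime.dvd_or_dvd h2 with h | h
  · right
    exact main F G hF hG hFG h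
  · left
    exact main G F hG hF (by rw [← hFG, mul_comm]) h

end Pool.Agent.TH343.PR
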