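import Pool.Agent.TH343.PR.Irred2

/-! # Reductions of the roots -/

set_option autoImplicit false

namespace Pool.Agent.TH343.PR

open Polynomial

variable {p : ℕ} {V : ℤ[X]} {f k : ℕ} {b : ℤ}

lemma Dat.map_PP_field (D : Dat p V f k b) (κ : Type*) [Field κ] [CharP κ p] :
    (PP (p : ℤ) V f k b).map (Int.castRingHom κ) =
      X ^ (2 * k + f) * V.map (Int.castRingHom κ) := by
  have h := congrArg (Polynomial.map (ZMod.castHom (dvd_refl p) κ)) (map_PP (p := p) (V := V)
    (f := f) D.hk D.hb')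
  rw [Polynomial.map_mul, Polynomial.map_pow, map_X, Polynomial.map_map, Polynomial.map_map] at h
  have e : (ZMod.castHom (dvd_refl p) κ).comp (Int.castRingHom (ZMod p)) = Int.castRingHom κ :=
    RingHom.ext_int _ _
  rwa [e] at h

lemma Dat.separable (D : Dat p V f k b) (κ : Type*) [Field κ] [CharP κ p] :
    (V.map (Int.castRingHom κ)).Separable := by
  have : Fact p.Prime := ⟨D.hp⟩
  have h1 : (V.map (Int.castRingHom (ZMod p))).Separable :=
    PerfectField.separable_of_irreducible D.hVu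
  have h2 := h1.map (f := ZMod.castHom (dvd_refl p) κ)
  rw [Polynomial.map_map] at h2
  have e : (ZMod.castHom (dvd_refl p) κ).comp (Int.castRingHom (ZMod p)) = Int.castRingHom κ :=
    RingHom.ext_int _ _
  rwa [e] at h2

section red

variable {B κ : Type*} [CommRing B] [IsDomain B] [Field κ] [CharP κ p] (res : B →+* κ)

lemma res_aeval (r : B) (Q : ℤ[X]) : res (aeval r Q) = (Q.map (Int.castRingHom κ)).eval (res r) := by
  rw [aeval_def, hom_eval₂, eval_map]
  congr 1
  exact RingHom.ext_int _ _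

/-- a root with nonzero reduction reduces to a root of `V` -/
lemma Dat.root_V (D : Dat p V f k b) {r : B} (hr : aeval r (PP (p : ℤ) V f k b) = 0)
    (h0 : res r ≠ 0) : (V.map (Int.castRingHom κ)).eval (res r) = 0 := by
  have h1 := res_aeval res r (PP (p : ℤ) V f k b)
  rw [hr, map_zero, D.map_PP_field, eval_mul, eval_pow, eval_X] at h1
  exact (mul_eq_zero.1 h1.symm).resolve_left (pow_ne_zero _ h0)

lemma Dat.red_inj (D : Dat p V f k b) {r s : B} (hr : aeval r (PP (p : ℤ) V f k b) = 0)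
    (hs : aeval s (PP (p : ℤ) V f k b) = 0) (hrs : r ≠ s) (h0 : res r ≠ 0) : res r ≠ res s := by
  intro hcon
  set PB : B[X] := (PP (p : ℤ) V f k b).map (algebraMap ℤ B) with hPB
  have hr' : PB.IsRoot r := by
    rw [IsRoot.def, hPB, eval_map_algebraMap, hr]
  obtain ⟨Q1, hQ1⟩ := dvd_iff_isRoot.2 hr'
  have hs' : Q1.IsRoot s := by
    have h1 : PB.eval s = 0 := by
      rw [hPB, eval_map_algebraMap, hs]
    rw [hQ1, eval_mul, eval_sub, eval_X, eval_C] at h1
    exact (mul_eq_zero.1 h1).resolve_left (sub_ne_zero.2 (Ne.symm hrs))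
  obtain ⟨Q2, hQ2⟩ := dvd_iff_isRoot.2 hs'
  have h1 : PB.map res = (PP (p : ℤ) V f k b).map (Int.castRingHom κ) := by
    rw [hPB, Polynomial.map_map]
    congr 1
    exact RingHom.ext_int _ _
  rw [hQ1, hQ2, Polynomial.map_mul, Polynomial.map_mul, Polynomial.map_sub, Polynomial.map_sub,
    map_X, map_C, map_C, ← hcon, D.map_PP_field] at h1
  have hV0 := D.root_V res hr h0
  have h2 := congrArg (fun q : κ[X] => (derivative q).eval (res r)) h1
  simp only [derivative_mul, eval_add, eval_mul, eval_sub, eval_X, eval_C, sub_self, zero_mul,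
    mul_zero, zero_add, add_zero, eval_pow, hV0] at h2
  have h3 : (derivative (V.map (Int.castRingHom κ))).eval (res r) = 0 :=
    (mul_eq_zero.1 h2.symm).resolve_left (pow_ne_zero _ h0)
  obtain ⟨a, c, hac⟩ := D.separable κ
  have h4 := congrArg (fun q : κ[X] => q.eval (res r)) hac
  simp only [eval_add, eval_mul, hV0, h3, mul_zero, add_zero, eval_one] at h4
  exact zero_ne_one h4

lemma Dat.unit_case (D : Dat p V f k b) {K0 : ℕ} (hK0 : (b = 0 ∧ K0 = k) ∨ (b ^ 2 = 1 ∧ K0 = k - 1))
    {x x' w : B} (hx'0 : x' ≠ 0)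
    (hP : x ^ k * aeval x V + x' ^ k * aeval x' V
      + (b : B) * (V.coeff 0 : B) * (x ^ (k - 1) * x' + x * x' ^ (k - 1)) = 0)
    (hx : res x = 0) (hx' : res x' = 0) (hw : w * x' = x) : res w ^ (2 * K0) = 1 := by
  obtain ⟨j, rfl⟩ : ∃ j, k = j + 1 := ⟨k - 1, by have := D.hk; omega⟩
  have ej : j + 1 - 1 = j := by omega
  rw [ej] at hP hK0
  have hE0 : w ^ (j + 1) * aeval x V + aeval x' V + (b : B) * (V.coeff 0 : B) * (w ^ j + w) = 0 := by
    have h1 : x' ^ (j + 1) * (w ^ (j + 1) * aeval x V + aeval x' V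
        + (b : B) * (V.coeff 0 : B) * (w ^ j + w)) = 0 := by
      rw [← hP]
      have f1 : x ^ (j + 1) = w ^ (j + 1) * x' ^ (j + 1) := by rw [← hw]; ring
      have f2 : x ^ j = w ^ j * x' ^ j := by rw [← hw]; ring
      rw [f1, f2]
      linear_combination ((b : B) * (V.coeff 0 : B) * x' ^ j) * hw
    exact (mul_eq_zero.1 h1).resolve_left (pow_ne_zero _ hx'0)
  have hres0 : ∀ z : B, res z = 0 → res (aeval z V) = (V.coeff 0 : κ) := by
    intro z hz
    rw [res_aeval, hz, ← coeff_zero_eq_eval_zero, coeff_map]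
    simp
  have h1 := congrArg res hE0
  simp only [map_add, map_mul, map_pow, map_intCast, map_zero, hres0 x hx, hres0 x' hx'] at h1
  have hc0 : (V.coeff 0 : κ) ≠ 0 := by
    intro h
    exact D.hV0 ((CharP.intCast_eq_zero_iff κ p _).1 h)
  set z := res w with hz
  have h2 : z ^ (j + 1) + 1 + (b : κ) * (z ^ j + z) = 0 := by
    apply mul_left_cancel₀ hc0
    rw [mul_zero]
    linear_combination h1
  rcases hK0 with ⟨hb, hK⟩ | ⟨hb, hK⟩
  · rw [hb, Int.cast_zero, zero_mul, add_zero] at h2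
    have h3 : z ^ (j + 1) = -1 := by linear_combination h2
    rw [hK, mul_comm, pow_mul, h3]
    norm_num
  · have hbk : (b : κ) ^ 2 = 1 := by exact_mod_cast congrArg (Int.cast : ℤ → κ) hb
    have h3 : (z ^ j + b) * (z + b) = 0 := by linear_combination h2 + hbk
    rw [hK]
    rcases mul_eq_zero.1 h3 with h4 | h4
    · have h5 : z ^ j = -b := by linear_combination h4
      rw [mul_comm, pow_mul, h5]
      linear_combination hbk
    · have h5 : z = -b := by linear_combination h4
      rw [pow_mul, h5]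
      have : (-(b : κ)) ^ 2 = 1 := by linear_combination hbk
      rw [this, one_pow]

/-- a root of unity with trivial reduction has order a power of `p` -/
lemma root_of_unity [CharZero B] (hp : p.Prime) {ε : B} {n : ℕ} (hn : 1 ≤ n) (hε : ε ^ n = 1)
    (h1 : res ε = 1) : ∃ a : ℕ, ε ^ (p ^ a) = 1 := by
  obtain ⟨a, m, hm, rfl⟩ := Nat.exists_eq_pow_mul_and_not_dvd (by omega : n ≠ 0) p hp.ne_one
  refine ⟨a, ?_⟩
  set μ := ε ^ (p ^ a) with hμ
  have hμ1 : μ ^ m = 1 := by rw [hμ, ← pow_mul, hε]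
  have hresμ : res μ = 1 := by rw [hμ, map_pow, h1, one_pow]
  have h2 : (∑ i ∈ Finset.range m, μ ^ i) * (μ - 1) = 0 := by
    rw [geom_sum_mul, hμ1, sub_self]
  rcases mul_eq_zero.1 h2 with h3 | h3
  · exfalso
    have h4 := congrArg res h3
    rw [map_sum, map_zero] at h4
    simp only [map_pow, hresμ, one_pow, Finset.sum_const, Finset.card_range, nsmul_eq_mul,
      mul_one] at h4
    exact hm ((CharP.cast_eq_zero_iff κ p m).1 h4)
  · exact sub_eq_zero.1 h3

end red

lemma pow_p_eq_one {κ : Type*} [Field κ] (hp : p.Prime) [CharP κ p] {z : κ} {a : ℕ}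
    (h : z ^ (p ^ a) = 1) : z = 1 := by
  have : Fact p.Prime := ⟨hp⟩
  have h1 : (z - 1) ^ (p ^ a) = 0 := by
    rw [sub_pow_char_pow, h, one_pow, sub_self]
  exact sub_eq_zero.1 (pow_eq_zero_iff (pow_ne_zero _ hp.ne_zero) |>.1 h1)

end Pool.Agent.TH343.PR
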