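import Pool.Agent.TH343.PR.Nondeg

/-! # Non-degeneracy of the roots, over the algebraic closure of the rationals -/

set_option autoImplicit false

namespace Pool.Agent.TH343.PR

open Polynomial

/-- the algebraic numbers -/
abbrev QQ : Type := AlgebraicClosure ℚ

lemma exists_val {p : ℕ} (hp : p.Prime) : ∃ B : ValuationSubring QQ, (p : QQ) ∈ B.nonunits := by
  set A : Subring QQ := (Int.castRingHom QQ).range with hA
  have hpA : (p : QQ) ∈ A := ⟨(p : ℤ), by simp⟩
  set I : Ideal A := Ideal.span {(⟨(p : QQ), hpA⟩ : A)} with hI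
  have hItop : I ≠ ⊤ := by
    intro h
    have h1 : (1 : A) ∈ I := by
      rw [h]
      trivial
    rw [hI, Ideal.mem_span_singleton'] at h1
    obtain ⟨⟨a, m, hm⟩, ha⟩ := h1
    have h2 : (a : QQ) * (p : QQ) = 1 := congrArg (fun z : A => (z : QQ)) ha
    have h3 : ((m * p : ℤ) : QQ) = ((1 : ℤ) : QQ) := by
      rw [Int.cast_mul, Int.cast_natCast, Int.cast_one]
      rw [← hm] at h2
      exact h2
    have h4 : m * p = 1 := by exact_mod_cast h3
    have h5 : (p : ℤ) ∣ 1 := ⟨m, by rw [← h4]; ring⟩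
    have h6 : (p : ℤ) = 1 := by
      exact Int.eq_one_of_dvd_one (by positivity) h5
    have h7 : p = 1 := by exact_mod_cast h6
    exact hp.ne_one h7
  obtain ⟨B, _, hB⟩ := Ideal.image_subset_nonunits_valuationSubring I hItop
  refine ⟨B, hB ⟨⟨(p : QQ), hpA⟩, ?_, rfl⟩⟩
  exact Ideal.subset_span rfl

variable {p : ℕ} {V : ℤ[X]} {f k : ℕ} {b : ℤ}

lemma mem_val (B : ValuationSubring QQ) {z : QQ} (hz : IsIntegral ℤ z) : z ∈ B := by
  have h1 : IsIntegral B z := hz.tower_top
  obtain ⟨y, hy⟩ := (IsIntegrallyClosed.isIntegral_iff (R := B) (K := QQ)).1 h1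
  rw [← hy]
  exact y.2

lemma exists_w (D : Dat p V f k b) {K0 : ℕ} (hK0 : (b = 0 ∧ K0 = k) ∨ (b ^ 2 = 1 ∧ K0 = k - 1))
    (hK : 1 ≤ K0)
    (B : ValuationSubring QQ) [CharP (IsLocalRing.ResidueField B) p] {x x' : B}
    (hxx : x * x' = (p : B))
    (hP : x ^ k * aeval x V + x' ^ k * aeval x' V
      + (b : B) * (V.coeff 0 : B) * (x ^ (k - 1) * x' + x * x' ^ (k - 1)) = 0)
    (hx : IsLocalRing.residue B x = 0) (hx' : IsLocalRing.residue B x' = 0) :
    ∃ w : B, w * x' = x ∧ (IsLocalRing.residue B w) ^ (2 * K0) = 1 := by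
  have hp0 : (p : B) ≠ 0 := by
    exact_mod_cast D.hp.ne_zero
  have hx0 : x ≠ 0 := by
    rintro rfl
    rw [zero_mul] at hxx
    exact hp0 hxx.symm
  have hx'0 : x' ≠ 0 := by
    rintro rfl
    rw [mul_zero] at hxx
    exact hp0 hxx.symm
  have hx0K : (x : QQ) ≠ 0 := by
    intro h
    exact hx0 (Subtype.ext h)
  have hx'0K : (x' : QQ) ≠ 0 := by
    intro h
    exact hx'0 (Subtype.ext h)
  rcases B.mem_or_inv_mem ((x : QQ) / x') with h | h
  · refine ⟨⟨(x : QQ) / x', h⟩, ?_, ?_⟩
    · apply Subtype.ext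
      show (x : QQ) / (x' : QQ) * (x' : QQ) = x
      field_simp
    · apply D.unit_case (IsLocalRing.residue B) hK0 hx'0 hP hx hx'
      apply Subtype.ext
      show (x : QQ) / (x' : QQ) * (x' : QQ) = x
      field_simp
  · have hv : (⟨((x : QQ) / x')⁻¹, h⟩ : B) * x = x' := by
      apply Subtype.ext
      show ((x : QQ) / (x' : QQ))⁻¹ * (x : QQ) = x'
      field_simp
    set v : B := ⟨((x : QQ) / x')⁻¹, h⟩ with hvdef
    have h1 := D.unit_case (IsLocalRing.residue B) hK0 hx0 (by
      rw [← hP]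
      ring) hx' hx hv
    have h2 : IsLocalRing.residue B v ≠ 0 := by
      intro h0
      rw [h0, zero_pow (by omega)] at h1
      exact zero_ne_one h1
    have h3 : IsUnit v := (IsLocalRing.residue_ne_zero_iff_isUnit v).1 h2
    obtain ⟨w, hw⟩ := h3.exists_left_inv
    refine ⟨w, ?_, ?_⟩
    · rw [← hv, ← mul_assoc, hw, one_mul]
    · have h4 : IsLocalRing.residue B w * IsLocalRing.residue B v = 1 := by
        rw [← map_mul, hw, map_one]
      have h5 : (IsLocalRing.residue B w) ^ (2 * K0) * (IsLocalRing.residue B v) ^ (2 * K0) = 1 := by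
        rw [← mul_pow, h4, one_pow]
      rw [h1, mul_one] at h5
      exact h5

/-- the symmetric relation satisfied by a root -/
lemma Dat.rel_of_root (D : Dat p V f k b) {R : Type*} [CommRing R] [IsDomain R] [CharZero R]
    {x x' : R} (hxx : x * x' = (p : R)) (hx : aeval x (PP (p : ℤ) V f k b) = 0) :
    x ^ k * aeval x V + x' ^ k * aeval x' V
      + (b : R) * (V.coeff 0 : R) * (x ^ (k - 1) * x' + x * x' ^ (k - 1)) = 0 := by
  have hx0 := D.ne_zero_of_root hx
  rw [aeval_PP D.hVd.le D.hk D.hb' (x' := x') (by rw [hxx]; simp)] at hx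
  exact (mul_eq_zero.1 hx).resolve_left (pow_ne_zero _ hx0)

lemma Dat.root_conj (D : Dat p V f k b) {R : Type*} [CommRing R] [IsDomain R] [CharZero R]
    {x x' : R} (hxx : x * x' = (p : R)) (hx : aeval x (PP (p : ℤ) V f k b) = 0) :
    aeval x' (PP (p : ℤ) V f k b) = 0 := by
  have h := D.rel_of_root hxx hx
  rw [aeval_PP D.hVd.le D.hk D.hb' (x' := x) (by rw [mul_comm, hxx]; simp)]
  have h2 : x' ^ k * aeval x' V + x ^ k * aeval x V
      + (b : R) * (V.coeff 0 : R) * (x' ^ (k - 1) * x + x' * x ^ (k - 1)) = 0 := by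
    rw [← h]
    ring
  rw [h2, mul_zero]

lemma exists_prod (B : ValuationSubring QQ) (s : Multiset QQ)
    (hs : ∀ a ∈ s, ∃ aB : B, (aB : QQ) = a ∧ IsLocalRing.residue B aB = 0) :
    ∃ Q : B[X], Q.map (algebraMap B QQ) = (s.map (fun a => X - C a)).prod ∧
      Q.map (IsLocalRing.residue B) = X ^ (Multiset.card s) := by
  induction s using Multiset.induction_on with
  | empty => exact ⟨1, by simp, by simp⟩
  | cons a s ih =>
    obtain ⟨Q, hQ1, hQ2⟩ := ih (fun a ha => hs a (Multiset.mem_cons_of_mem ha))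
    obtain ⟨aB, ha1, ha2⟩ := hs a (Multiset.mem_cons_self a s)
    refine ⟨(X - C aB) * Q, ?_, ?_⟩
    · rw [Polynomial.map_mul, hQ1, Multiset.map_cons, Multiset.prod_cons, Polynomial.map_sub,
        map_X, map_C]
      congr 3
    · rw [Polynomial.map_mul, hQ2, Multiset.card_cons, Polynomial.map_sub, map_X, map_C, ha2,
        map_zero, sub_zero, pow_succ']

/-- the roots in `QQ` -/
noncomputable def rts (p : ℕ) (V : ℤ[X]) (f k : ℕ) (b : ℤ) : Multiset QQ :=
  (PP (p : ℤ) V f k b).aroots QQ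

lemma Dat.mem_rts (D : Dat p V f k b) {x : QQ} :
    x ∈ rts p V f k b ↔ aeval x (PP (p : ℤ) V f k b) = 0 := by
  have hm : (PP (p : ℤ) V f k b).Monic := monic_PP D.hVd D.hVm D.hf D.hk
  rw [rts, mem_aroots]
  constructor
  · intro h
    exact h.2
  · intro h
    exact ⟨hm.ne_zero, h⟩

lemma Dat.irreducible_rat (D : Dat p V f k b) :
    Irreducible ((PP (p : ℤ) V f k b).map (algebraMap ℤ ℚ)) := by
  have hm : (PP (p : ℤ) V f k b).Monic := monic_PP D.hVd D.hVm D.hf D.hk
  exact (hm.irreducible_iff_irreducible_map_fraction_map).1 D.irreducible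

lemma Dat.card_rts (D : Dat p V f k b) : Multiset.card (rts p V f k b) = 2 * (f + k) := by
  have hm : (PP (p : ℤ) V f k b).Monic := monic_PP D.hVd D.hVm D.hf D.hk
  have h1 : Splits ((PP (p : ℤ) V f k b).map (algebraMap ℤ QQ)) := IsAlgClosed.splits _
  have h2 := h1.natDegree_eq_card_roots
  rw [hm.natDegree_map, natDegree_PP D.hVd D.hVm D.hf D.hk] at h2
  exact h2.symm

lemma Dat.nodup_rts (D : Dat p V f k b) : (rts p V f k b).Nodup := by
  have h1 : ((PP (p : ℤ) V f k b).map (algebraMap ℤ ℚ)).Separable := D.irreducible_rat.separable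
  have h2 := h1.map (f := algebraMap ℚ QQ)
  rw [Polynomial.map_map] at h2
  have e : (algebraMap ℚ QQ).comp (algebraMap ℤ ℚ) = algebraMap ℤ QQ := RingHom.ext_int _ _
  rw [e] at h2
  exact nodup_roots h2

lemma Dat.integral_of_root (D : Dat p V f k b) {x : QQ}
    (hx : aeval x (PP (p : ℤ) V f k b) = 0) : IsIntegral ℤ x :=
  ⟨PP (p : ℤ) V f k b, monic_PP D.hVd D.hVm D.hf D.hk, hx⟩

lemma aeval_lift (B : ValuationSubring QQ) (x : B) (Q : ℤ[X]) :
    ((aeval x Q : B) : QQ) = aeval (x : QQ) Q := by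
  have := aeval_algebraMap_apply QQ x Q
  exact this.symm

lemma Dat.root_lift (D : Dat p V f k b) (B : ValuationSubring QQ) {x : QQ}
    (hx : aeval x (PP (p : ℤ) V f k b) = 0) :
    ∃ xB : B, (xB : QQ) = x ∧ aeval xB (PP (p : ℤ) V f k b) = 0 := by
  refine ⟨⟨x, mem_val B (D.integral_of_root hx)⟩, rfl, ?_⟩
  apply Subtype.ext
  rw [aeval_lift]
  exact hx

/-- some root has nonzero reduction -/
lemma Dat.exists_unit_root (D : Dat p V f k b) (B : ValuationSubring QQ)
    [CharP (IsLocalRing.ResidueField B) p] :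
    ∃ r : B, aeval r (PP (p : ℤ) V f k b) = 0 ∧ IsLocalRing.residue B r ≠ 0 := by
  by_contra hcon
  push Not at hcon
  have hm : (PP (p : ℤ) V f k b).Monic := monic_PP D.hVd D.hVm D.hf D.hk
  obtain ⟨Q, hQ1, hQ2⟩ := exists_prod B (rts p V f k b) (by
    intro a ha
    obtain ⟨aB, h1, h2⟩ := D.root_lift B (D.mem_rts.1 ha)
    exact ⟨aB, h1, hcon aB h2⟩)
  have h1 : Splits ((PP (p : ℤ) V f k b).map (algebraMap ℤ QQ)) := IsAlgClosed.splits _
  have h2 := h1.eq_prod_roots_of_monic (hm.map _)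
  have h3 : Q = (PP (p : ℤ) V f k b).map (algebraMap ℤ B) := by
    apply map_injective (algebraMap B QQ) (IsFractionRing.injective B QQ)
    rw [hQ1, Polynomial.map_map]
    have e : (algebraMap B QQ).comp (algebraMap ℤ B) = algebraMap ℤ QQ := RingHom.ext_int _ _
    rw [e]
    exact h2.symm
  rw [h3, Polynomial.map_map, D.card_rts] at hQ2
  have e : (IsLocalRing.residue B).comp (algebraMap ℤ B)
      = Int.castRingHom (IsLocalRing.ResidueField B) := RingHom.ext_int _ _
  rw [e, D.map_PP_field] at hQ2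
  have h4 := congrArg (fun q : (IsLocalRing.ResidueField B)[X] => q.coeff (2 * k + f)) hQ2
  simp only [coeff_X_pow_mul', coeff_X_pow] at h4
  have hf := D.hf
  rw [if_pos le_rfl, Nat.sub_self, if_neg (by omega), coeff_map, eq_intCast] at h4
  exact D.hV0 ((CharP.intCast_eq_zero_iff _ p _).1 h4)

/-- some root reduces to zero, together with its conjugate -/
lemma Dat.exists_small_root (D : Dat p V f k b) (B : ValuationSubring QQ)
    [CharP (IsLocalRing.ResidueField B) p] :
    ∃ x x' : B, aeval x (PP (p : ℤ) V f k b) = 0 ∧ x * x' = (p : B) ∧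
      IsLocalRing.residue B x = 0 ∧ IsLocalRing.residue B x' = 0 := by
  classical
  have hp0 : (p : QQ) ≠ 0 := by exact_mod_cast D.hp.ne_zero
  set rd : QQ → IsLocalRing.ResidueField B :=
    fun x => if h : x ∈ B then IsLocalRing.residue B ⟨x, h⟩ else 0 with hrd
  have hrd1 : ∀ x : B, rd (x : QQ) = IsLocalRing.residue B x := by
    intro x
    rw [hrd]
    simp only [Subtype.coe_eta, dite_eq_ite]
    rw [if_pos x.2]
  set R : Finset QQ := (rts p V f k b).toFinset with hR
  have hRcard : R.card = 2 * (f + k) := by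
    rw [hR, Multiset.toFinset_card_of_nodup D.nodup_rts, D.card_rts]
  have hmemR : ∀ x, x ∈ R ↔ aeval x (PP (p : ℤ) V f k b) = 0 := by
    intro x
    rw [hR, Multiset.mem_toFinset, D.mem_rts]
  set S1 : Finset QQ := R.filter (fun x => rd x ≠ 0) with hS1
  set S2 : Finset QQ := R.filter (fun x => rd ((p : QQ) / x) ≠ 0) with hS2
  have hS1card : S1.card ≤ f := by
    set U := (V.map (Int.castRingHom (IsLocalRing.ResidueField B))) with hU
    have h1 : S1.card ≤ U.roots.toFinset.card := by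
      apply Finset.card_le_card_of_injOn rd
      · intro x hx
        rw [Finset.mem_coe, hS1, Finset.mem_filter, hmemR] at hx
        obtain ⟨xB, h1, h2⟩ := D.root_lift B hx.1
        rw [Finset.mem_coe, Multiset.mem_toFinset, mem_roots (D.hVm.map _).ne_zero, IsRoot.def]
        have h3 := hx.2
        rw [← h1, hrd1] at h3 ⊢
        exact D.root_V (IsLocalRing.residue B) h2 h3
      · intro x hx y hy hxy
        rw [Finset.mem_coe, hS1, Finset.mem_filter, hmemR] at hx hy
        obtain ⟨xB, h1, h2⟩ := D.root_lift B hx.1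
        obtain ⟨yB, h3, h4⟩ := D.root_lift B hy.1
        by_contra hne
        have hneB : xB ≠ yB := by
          intro h
          apply hne
          rw [← h1, ← h3, h]
        have h5 := hx.2
        rw [← h1, hrd1] at h5
        apply D.red_inj (IsLocalRing.residue B) h2 h4 hneB h5
        rw [← hrd1, ← hrd1, h1, h3]
        exact hxy
    refine h1.trans ((Multiset.toFinset_card_le _).trans ((card_roots' _).trans ?_))
    rw [hU]
    exact natDegree_map_le.trans D.hVd.le
  have hS2card : S2.card ≤ S1.card := by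
    apply Finset.card_le_card_of_injOn (fun x => (p : QQ) / x)
    · intro x hx
      rw [Finset.mem_coe, hS2, Finset.mem_filter, hmemR] at hx
      rw [Finset.mem_coe, hS1, Finset.mem_filter, hmemR]
      refine ⟨?_, hx.2⟩
      have hx0 := D.ne_zero_of_root hx.1
      exact D.root_conj (x := x) (mul_div_cancel₀ _ hx0) hx.1
    · intro x hx y hy hxy
      rw [Finset.mem_coe, hS2, Finset.mem_filter, hmemR] at hx hy
      have hx0 := D.ne_zero_of_root hx.1
      have hy0 := D.ne_zero_of_root hy.1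
      simp only at hxy
      rw [div_eq_div_iff hx0 hy0] at hxy
      exact (mul_left_cancel₀ hp0 hxy).symm
  have hlt : (S1 ∪ S2).card < R.card := by
    have h1 := Finset.card_union_le S1 S2
    have h2 := D.hk
    omega
  obtain ⟨x, hxR, hx⟩ := Finset.exists_mem_notMem_of_card_lt_card hlt
  rw [Finset.mem_union, not_or] at hx
  have hx1 : rd x = 0 := by
    by_contra h
    exact hx.1 (Finset.mem_filter.2 ⟨hxR, h⟩)
  have hx2 : rd ((p : QQ) / x) = 0 := by
    by_contra h
    exact hx.2 (Finset.mem_filter.2 ⟨hxR, h⟩)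
  rw [hmemR] at hxR
  have hx0 := D.ne_zero_of_root hxR
  have hx' := D.root_conj (x' := (p : QQ) / x) (mul_div_cancel₀ _ hx0) hxR
  obtain ⟨xB, h1, h2⟩ := D.root_lift B hxR
  obtain ⟨x'B, h3, h4⟩ := D.root_lift B hx'
  refine ⟨xB, x'B, h2, ?_, ?_, ?_⟩
  · apply Subtype.ext
    show (xB : QQ) * (x'B : QQ) = _
    rw [h1, h3, mul_div_cancel₀ _ hx0]
    simp
  · rw [← hrd1, h1, hx1]
  · rw [← hrd1, h3, hx2]

end Pool.Agent.TH343.PR
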