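import Pool.Agent.TH343.PR.Nondeg2

/-! # Non-degeneracy of the roots: main statement -/

set_option autoImplicit false

namespace Pool.Agent.TH343.PR

open Polynomial

variable {p : ℕ} {V : ℤ[X]} {f k : ℕ} {b : ℤ}

lemma isAlgebraic_QQ : Algebra.IsAlgebraic ℚ QQ := AlgebraicClosure.isAlgebraic ℚ

lemma normal_QQ : Normal ℚ QQ := by
  have := isAlgebraic_QQ
  exact normal_iff.2 (fun x => ⟨Algebra.IsIntegral.isIntegral x, IsAlgClosed.splits _⟩)

lemma Dat.exists_aut (D : Dat p V f k b) {x y : QQ} (hx : aeval x (PP (p : ℤ) V f k b) = 0)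
    (hy : aeval y (PP (p : ℤ) V f k b) = 0) : ∃ σ : QQ ≃ₐ[ℚ] QQ, σ x = y := by
  have hm : ((PP (p : ℤ) V f k b).map (algebraMap ℤ ℚ)).Monic :=
    (monic_PP D.hVd D.hVm D.hf D.hk).map _
  have hx' : aeval x ((PP (p : ℤ) V f k b).map (algebraMap ℤ ℚ)) = 0 := by
    rw [aeval_map_algebraMap]
    exact hx
  have hy' : aeval y ((PP (p : ℤ) V f k b).map (algebraMap ℤ ℚ)) = 0 := by
    rw [aeval_map_algebraMap]
    exact hy
  have h1 := minpoly.eq_of_irreducible_of_monic D.irreducible_rat hx' hm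
  have h2 := minpoly.eq_of_irreducible_of_monic D.irreducible_rat hy' hm
  have := normal_QQ
  have h3 : IsConjRoot ℚ y x := by
    show minpoly ℚ y = minpoly ℚ x
    rw [← h1, ← h2]
  exact isConjRoot_iff_exists_algEquiv.1 h3

lemma aeval_aut (σ : QQ ≃ₐ[ℚ] QQ) (x : QQ) (Q : ℤ[X]) : aeval (σ x) Q = σ (aeval x Q) := by
  rw [aeval_def, aeval_def]
  have := hom_eval₂ Q (algebraMap ℤ QQ) (σ : QQ →+* QQ) x
  have e : (σ : QQ →+* QQ).comp (algebraMap ℤ QQ) = algebraMap ℤ QQ := RingHom.ext_int _ _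
  rw [e] at this
  exact this.symm

theorem Dat.nondeg (D : Dat p V f k b) {K0 : ℕ}
    (hK0 : (b = 0 ∧ K0 = k) ∨ (b ^ 2 = 1 ∧ K0 = k - 1)) (hK : 1 ≤ K0) {R : (ZMod p)[X]}
    (hR : V.map (Int.castRingHom (ZMod p)) ∣ X - R.comp (X ^ (4 * K0))) {x y : QQ}
    (hx : aeval x (PP (p : ℤ) V f k b) = 0) (hy : aeval y (PP (p : ℤ) V f k b) = 0)
    {n : ℕ} (hn : 1 ≤ n) (hxy : x ^ n = y ^ n) : x = y := by
  by_contra hne
  obtain ⟨B, hB⟩ := exists_val D.hp
  set κ := IsLocalRing.ResidueField B with hκ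
  have hpB : IsLocalRing.residue B (p : B) = 0 := by
    rw [IsLocalRing.residue_eq_zero_iff]
    apply (ValuationSubring.coe_mem_nonunits_iff).1
    simpa using hB
  have hchar : CharP κ p := by
    apply (CharP.charP_iff_prime_eq_zero D.hp).2
    rw [← hpB, map_natCast]
  have hpB0 : (p : B) ≠ 0 := by exact_mod_cast D.hp.ne_zero
  -- move x to a unit root
  obtain ⟨r, hr, hr0⟩ := D.exists_unit_root B
  have hrQ : aeval (r : QQ) (PP (p : ℤ) V f k b) = 0 := by
    rw [← aeval_lift, hr]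
    rfl
  obtain ⟨τ, hτ⟩ := D.exists_aut hx hrQ
  set y1 : QQ := τ y with hy1
  have hy1root : aeval y1 (PP (p : ℤ) V f k b) = 0 := by
    rw [hy1, aeval_aut, hy, map_zero]
  have hy1ne : y1 ≠ (r : QQ) := by
    intro h
    apply hne
    apply τ.injective
    rw [hτ, ← h]
  have hy1pow : y1 ^ n = (r : QQ) ^ n := by
    rw [hy1, ← hτ, ← map_pow, ← map_pow, hxy]
  have hr0Q : (r : QQ) ≠ 0 := D.ne_zero_of_root hrQ
  set ζ : QQ := y1 / r with hζ
  have hζn : ζ ^ n = 1 := by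
    rw [hζ, div_pow, hy1pow, div_self (pow_ne_zero _ hr0Q)]
  -- a small root
  obtain ⟨x0, x0', hx0, hx0x, hx0r, hx0r'⟩ := D.exists_small_root B
  have hx0Q : aeval (x0 : QQ) (PP (p : ℤ) V f k b) = 0 := by
    rw [← aeval_lift, hx0]
    rfl
  obtain ⟨σ, hσ⟩ := D.exists_aut hrQ hx0Q
  -- the root of unity
  have hz1 : (σ ζ) ^ n = 1 := by rw [← map_pow, hζn, map_one]
  have hzint : ∀ z : QQ, z ^ n = 1 → z ∈ B := by
    intro z hz
    apply mem_val
    refine ⟨X ^ n - 1, monic_X_pow_sub_C 1 (by omega), ?_⟩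
    simp [hz]
  set z : B := ⟨σ ζ, hzint _ hz1⟩ with hz
  have hzn : z ^ n = 1 := by
    apply Subtype.ext
    push_cast
    exact hz1
  set zi : B := z ^ (n - 1) with hzi
  have hzz : z * zi = 1 := by
    rw [hzi, ← pow_succ', Nat.sub_add_cancel hn, hzn]
  set y0 : B := z * x0 with hy0
  set y0' : B := zi * x0' with hy0'
  have hy0y : y0 * y0' = (p : B) := by
    rw [hy0, hy0', ← hx0x]
    linear_combination (x0 * x0') * hzz
  have hy0root : aeval y0 (PP (p : ℤ) V f k b) = 0 := by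
    apply Subtype.ext
    rw [aeval_lift]
    have h1 : (y0 : QQ) = σ y1 := by
      rw [hy0]
      show σ ζ * (x0 : QQ) = σ y1
      rw [← hσ, ← map_mul, hζ, div_mul_cancel₀ _ hr0Q]
    rw [h1, aeval_aut, hy1root, map_zero]
    rfl
  have hy0r : IsLocalRing.residue B y0 = 0 := by rw [hy0, map_mul, hx0r, mul_zero]
  have hy0r' : IsLocalRing.residue B y0' = 0 := by rw [hy0', map_mul, hx0r', mul_zero]
  obtain ⟨w1, hw1, hw1'⟩ := exists_w D hK0 hK B hx0x (D.rel_of_root hx0x hx0) hx0r hx0r'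
  obtain ⟨w2, hw2, hw2'⟩ := exists_w D hK0 hK B hy0y (D.rel_of_root hy0y hy0root) hy0r hy0r'
  have hx0'0 : x0' ≠ 0 := by
    rintro rfl
    rw [mul_zero] at hx0x
    exact hpB0 hx0x.symm
  have hww : w2 = z ^ 2 * w1 := by
    have h1 : x0' * w2 = x0' * (z ^ 2 * w1) := by
      rw [hy0, hy0'] at hw2
      linear_combination z * hw2 - (w2 * x0') * hzz - z ^ 2 * hw1
    exact mul_left_cancel₀ hx0'0 h1
  have hz4 : (IsLocalRing.residue B z) ^ (4 * K0) = 1 := by
    rw [hww, map_mul, map_pow, mul_pow, hw1', mul_one, ← pow_mul] at hw2'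
    have : 4 * K0 = 2 * (2 * K0) := by ring
    rw [this]
    exact hw2'
  obtain ⟨a, ha⟩ := root_of_unity (IsLocalRing.residue B) D.hp (ε := z ^ (4 * K0)) hn (by
    rw [← pow_mul, mul_comm, pow_mul, hzn, one_pow]) (by
    rw [map_pow]
    exact hz4)
  -- transport back
  have hζa : (ζ ^ (4 * K0)) ^ (p ^ a) = 1 := by
    apply σ.injective
    rw [map_pow, map_pow, map_one]
    have := congrArg (fun q : B => (q : QQ)) ha
    simpa [hz] using this
  set c : B := ⟨ζ, hzint _ hζn⟩ with hc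
  have hca : (c ^ (4 * K0)) ^ (p ^ a) = 1 := by
    apply Subtype.ext
    push_cast
    exact hζa
  have hc4 : (IsLocalRing.residue B c) ^ (4 * K0) = 1 := by
    have h1 := congrArg (IsLocalRing.residue B) hca
    rw [map_pow, map_pow, map_one] at h1
    exact pow_p_eq_one D.hp h1
  have hy1B : ((c * r : B) : QQ) = y1 := by
    show ζ * (r : QQ) = y1
    rw [hζ, div_mul_cancel₀ _ hr0Q]
  have hcr : aeval (c * r) (PP (p : ℤ) V f k b) = 0 := by
    apply Subtype.ext
    rw [aeval_lift, hy1B]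
    exact hy1root
  have hcrne : r ≠ c * r := by
    intro h
    apply hy1ne
    rw [← hy1B, ← h]
  apply D.red_inj (IsLocalRing.residue B) hr hcr hcrne hr0
  -- conclude with the polynomial R
  have hc0 : IsLocalRing.residue B c ≠ 0 := by
    intro h
    rw [h, zero_pow (by omega)] at hc4
    exact zero_ne_one hc4
  have hcr0 : IsLocalRing.residue B (c * r) ≠ 0 := by
    rw [map_mul]
    exact mul_ne_zero hc0 hr0
  have hV1 := D.root_V (IsLocalRing.residue B) hr hr0
  have hV2 := D.root_V (IsLocalRing.residue B) hcr hcr0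
  obtain ⟨S, hS⟩ := hR
  have hS' := congrArg (Polynomial.map (ZMod.castHom (dvd_refl p) κ)) hS
  rw [Polynomial.map_mul, Polynomial.map_sub, map_X, Polynomial.map_map, Polynomial.map_comp,
    Polynomial.map_pow, map_X] at hS'
  have e : (ZMod.castHom (dvd_refl p) κ).comp (Int.castRingHom (ZMod p)) = Int.castRingHom κ :=
    RingHom.ext_int _ _
  rw [e] at hS'
  have hfin : ∀ s : κ, (V.map (Int.castRingHom κ)).eval s = 0 →
      s = (R.map (ZMod.castHom (dvd_refl p) κ)).eval (s ^ (4 * K0)) := by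
    intro s hs
    have h1 := congrArg (fun q : κ[X] => q.eval s) hS'
    simp only [eval_sub, eval_X, eval_mul, eval_comp, eval_pow, hs, zero_mul] at h1
    exact sub_eq_zero.1 h1
  rw [hfin _ hV1, hfin _ hV2]
  congr 1
  rw [map_mul, mul_pow, hc4, one_mul]

end Pool.Agent.TH343.PR
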