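import Mathlib

/-! # Weil polynomials from polynomials without zeros in a disc -/

set_option autoImplicit false

namespace Pool.Agent.TH343.PR

open Polynomial

/-- the polynomial `p^g z^(2g-1) A(1/(p z))` -/
noncomputable def GG (p : ℂ) (g : ℕ) (A : ℤ[X]) (z : ℂ) : ℂ :=
  ∑ i ∈ Finset.range (g + 1), (A.coeff i : ℂ) * p ^ (g - i) * z ^ (2 * g - 1 - i)

lemma aeval_eq_range {A : ℤ[X]} {g : ℕ} (hA : A.natDegree ≤ g) (z : ℂ) :
    aeval z A = ∑ i ∈ Finset.range (g + 1), (A.coeff i : ℂ) * z ^ i := by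
  rw [aeval_eq_sum_range' (n := g + 1) (by omega)]
  apply Finset.sum_congr rfl
  intro i _
  rw [zsmul_eq_mul]

lemma GG_eq {p : ℂ} (hp : p ≠ 0) {g : ℕ} (hg : 1 ≤ g) {A : ℤ[X]} (hA : A.natDegree ≤ g) {z : ℂ}
    (hz : z ≠ 0) : GG p g A z = p ^ g * z ^ (2 * g - 1) * aeval (1 / (p * z)) A := by
  rw [aeval_eq_range hA, GG, Finset.mul_sum]
  apply Finset.sum_congr rfl
  intro i hi
  have hi' : i ≤ g := by
    have := Finset.mem_range.1 hi
    omega
  have h1 : p ^ g = p ^ (g - i) * p ^ i := by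
    rw [← pow_add]
    congr 1
    omega
  have h2 : z ^ (2 * g - 1) = z ^ (2 * g - 1 - i) * z ^ i := by
    rw [← pow_add]
    congr 1
    omega
  rw [h1, h2, one_div, inv_pow, mul_pow]
  have := pow_ne_zero i hp
  have := pow_ne_zero i hz
  field_simp

lemma norm_aeval_conj (A : ℤ[X]) (z : ℂ) : ‖aeval (starRingEnd ℂ z) A‖ = ‖aeval z A‖ := by
  have h : aeval (starRingEnd ℂ z) A = starRingEnd ℂ (aeval z A) := by
    rw [aeval_def, aeval_def, hom_eval₂]
    congr 1
    ext n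
    simp
  rw [h]
  exact RCLike.norm_conj _

/-- no roots outside the circle -/
lemma weil_outside (A : ℤ[X]) (g : ℕ) (hg : 1 ≤ g) (hA : A.natDegree ≤ g) (p : ℝ) (hp : 0 < p)
    (hne : ∀ z : ℂ, ‖z‖ ^ 2 ≤ 1 / p → aeval z A ≠ 0) (x : ℂ) (hx : x ≠ 0)
    (h : x ^ (2 * g) * aeval (1 / x) A + (p : ℂ) ^ g * aeval (x / p) A = 0) :
    ‖x‖ ^ 2 ≤ p := by
  by_contra hcon
  rw [not_le] at hcon
  set r : ℝ := 1 / Real.sqrt p with hr
  have hsp : 0 < Real.sqrt p := Real.sqrt_pos.2 hp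
  have hr0 : 0 < r := by positivity
  have hr2 : r ^ 2 = 1 / p := by
    rw [hr, div_pow, one_pow, Real.sq_sqrt hp.le]
  have hpc : (p : ℂ) ≠ 0 := by exact_mod_cast hp.ne'
  set z0 : ℂ := 1 / x with hz0
  have hz00 : z0 ≠ 0 := by
    rw [hz0]
    exact one_div_ne_zero hx
  have hxn : 0 < ‖x‖ := norm_pos_iff.2 hx
  have hz0n : ‖z0‖ < r := by
    have h1 : ‖z0‖ ^ 2 < r ^ 2 := by
      rw [hr2, hz0, norm_div, norm_one, div_pow, one_pow]
      exact one_div_lt_one_div_of_lt hp hcon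
    exact lt_of_pow_lt_pow_left₀ 2 hr0.le h1
  -- the relation at z0
  have hrel : aeval z0 A = - (z0 * GG p g A z0) := by
    rw [GG_eq hpc hg hA hz00]
    have h1 : (1 : ℂ) / (p * z0) = x / p := by
      rw [hz0]
      field_simp
    rw [h1]
    have h2 : z0 * ((p : ℂ) ^ g * z0 ^ (2 * g - 1) * aeval (x / p) A)
        = z0 ^ (2 * g) * ((p : ℂ) ^ g * aeval (x / p) A) := by
      have : z0 ^ (2 * g) = z0 * z0 ^ (2 * g - 1) := by
        rw [← pow_succ']
        congr 1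
        omega
      rw [this]
      ring
    rw [h2]
    have h3 : (p : ℂ) ^ g * aeval (x / p) A = - (x ^ (2 * g) * aeval z0 A) := by
      linear_combination h
    rw [h3]
    have h4 : z0 ^ (2 * g) * x ^ (2 * g) = 1 := by
      rw [← mul_pow, hz0, one_div, inv_mul_cancel₀ hx, one_pow]
    linear_combination (- aeval z0 A) * h4
  -- maximum principle
  have hAne : ∀ z ∈ Metric.closedBall (0 : ℂ) r, aeval z A ≠ 0 := by
    intro z hz
    apply hne
    rw [mem_closedBall_zero_iff] at hz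
    rw [← hr2]
    exact pow_le_pow_left₀ (norm_nonneg _) hz 2
  have hdiffA : Differentiable ℂ (fun z : ℂ => aeval z A) := by
    have : (fun z : ℂ => aeval z A) = fun z => ∑ i ∈ Finset.range (g + 1), (A.coeff i : ℂ) * z ^ i := by
      funext z
      exact aeval_eq_range hA z
    rw [this]
    fun_prop
  have hdiffG : Differentiable ℂ (fun z : ℂ => GG p g A z) := by
    unfold GG
    fun_prop
  have hcl : closure (Metric.ball (0 : ℂ) r) = Metric.closedBall 0 r := closure_ball _ hr0.ne'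
  have hd : DiffContOnCl ℂ (fun z => GG p g A z / aeval z A) (Metric.ball (0 : ℂ) r) := by
    apply DifferentiableOn.diffContOnCl
    rw [hcl]
    intro z hz
    exact (hdiffG z).differentiableWithinAt.div (hdiffA z).differentiableWithinAt (hAne z hz)
  have hfr : ∀ z ∈ frontier (Metric.ball (0 : ℂ) r), ‖GG p g A z / aeval z A‖ ≤ 1 / r := by
    intro z hz
    rw [frontier_ball _ hr0.ne', mem_sphere_zero_iff_norm] at hz
    have hz1 : z ≠ 0 := by
      rw [← norm_pos_iff, hz]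
      exact hr0
    have hcz : (1 : ℂ) / (p * z) = starRingEnd ℂ z := by
      rw [div_eq_iff (mul_ne_zero hpc hz1)]
      have : starRingEnd ℂ z * z = ((‖z‖ ^ 2 : ℝ) : ℂ) := by
        rw [mul_comm, Complex.mul_conj, Complex.normSq_eq_norm_sq]
      have h2 : starRingEnd ℂ z * ((p : ℂ) * z) = p * (starRingEnd ℂ z * z) := by ring
      rw [h2, this, hz, hr2]
      push_cast
      field_simp
    rw [GG_eq hpc hg hA hz1, hcz, norm_div, norm_mul, norm_aeval_conj, norm_mul, norm_pow, norm_pow,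
      hz]
    have hAz : 0 < ‖aeval z A‖ := norm_pos_iff.2 (hAne z (by
      rw [mem_closedBall_zero_iff, hz]))
    rw [mul_div_assoc, div_self hAz.ne', mul_one, Complex.norm_real, Real.norm_of_nonneg hp.le]
    have h5 : p ^ g * r ^ (2 * g) = 1 := by
      rw [pow_mul, hr2, ← mul_pow, mul_one_div_cancel hp.ne', one_pow]
    have h6 : r ^ (2 * g) = r ^ (2 * g - 1) * r := by
      rw [← pow_succ]
      congr 1
      omega
    rw [h6] at h5
    rw [le_div_iff₀ hr0]
    nlinarith [h5]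
  have hmax := Complex.norm_le_of_forall_mem_frontier_norm_le Metric.isBounded_ball hd hfr
    (z := z0) (by
      rw [hcl, mem_closedBall_zero_iff]
      exact hz0n.le)
  have hA0 : 0 < ‖aeval z0 A‖ := norm_pos_iff.2 (hAne z0 (by
    rw [mem_closedBall_zero_iff]
    exact hz0n.le))
  rw [norm_div, div_le_div_iff₀ hA0 hr0] at hmax
  have h7 : ‖aeval z0 A‖ = ‖z0‖ * ‖GG p g A z0‖ := by
    rw [hrel, norm_neg, norm_mul]
  have h8 : ‖z0‖ * (‖GG p g A z0‖ * r) ≤ ‖z0‖ * (1 * ‖aeval z0 A‖) :=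
    mul_le_mul_of_nonneg_left hmax (norm_nonneg _)
  have h9 : ‖aeval z0 A‖ * r ≤ ‖z0‖ * ‖aeval z0 A‖ := by
    nlinarith [h8, h7]
  nlinarith [h9, hA0, hz0n]

/-- all nonzero roots lie on the circle -/
lemma weil (A : ℤ[X]) (g : ℕ) (hg : 1 ≤ g) (hA : A.natDegree ≤ g) (p : ℝ) (hp : 0 < p)
    (hne : ∀ z : ℂ, ‖z‖ ^ 2 ≤ 1 / p → aeval z A ≠ 0) (x : ℂ) (hx : x ≠ 0)
    (h : x ^ (2 * g) * aeval (1 / x) A + (p : ℂ) ^ g * aeval (x / p) A = 0) :
    ‖x‖ ^ 2 = p := by
  apply le_antisymm (weil_outside A g hg hA p hp hne x hx h)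
  have hpc : (p : ℂ) ≠ 0 := by exact_mod_cast hp.ne'
  have hy : (p : ℂ) / x ≠ 0 := div_ne_zero hpc hx
  have h1 := weil_outside A g hg hA p hp hne (p / x) hy (by
    have e1 : (1 : ℂ) / (p / x) = x / p := by
      field_simp
    have e2 : (p : ℂ) / x / p = 1 / x := by
      field_simp
    rw [e1, e2]
    have e3 : ((p : ℂ) / x) ^ (2 * g) * x ^ (2 * g) = (p : ℂ) ^ g * (p : ℂ) ^ g := by
      rw [← mul_pow, div_mul_cancel₀ _ hx, two_mul, pow_add]
    have e4 : x ^ (2 * g) ≠ 0 := pow_ne_zero _ hx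
    apply mul_left_cancel₀ e4
    rw [mul_zero]
    linear_combination (p : ℂ) ^ g * h + (aeval (x / (p : ℂ)) A) * e3)
  have hxn : 0 < ‖x‖ := norm_pos_iff.2 hx
  rw [norm_div, div_pow, Complex.norm_real, Real.norm_of_nonneg hp.le, div_le_iff₀ (by positivity)] at h1
  nlinarith [h1]

end Pool.Agent.TH343.PR
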